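import Mathlib
import Pool.Agent.H772R2.NS.Space2

/-!
The Loomis-Whitney inequality in three dimensions, integration in an orthonormal frame, and the
anisotropic Sobolev inequality `‖φ‖₆³ ≤ 64 ∏ ‖∂_{b i} φ‖₂`.
-/

set_option linter.unusedSectionVars false

open MeasureTheory Set Filter Topology
open scoped InnerProductSpace ENNReal ContDiff NNReal

namespace Q176.AN

open H772R2.NS

theorem cs {α : Type*} {mα : MeasurableSpace α} {μ : Measure α} {f g : α → ℝ≥0∞}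
    (hf : AEMeasurable f μ) (hg : AEMeasurable g μ) :
    ∫⁻ a, f a ^ (1 / 2 : ℝ) * g a ^ (1 / 2 : ℝ) ∂μ
      ≤ (∫⁻ a, f a ∂μ) ^ (1 / 2 : ℝ) * (∫⁻ a, g a ∂μ) ^ (1 / 2 : ℝ) := by
  have h := ENNReal.lintegral_mul_le_Lp_mul_Lq μ Real.HolderConjugate.two_two
    (hf.pow_const (1 / 2 : ℝ)) (hg.pow_const (1 / 2 : ℝ))
  have e : ∀ x : ℝ≥0∞, (x ^ (1 / 2 : ℝ)) ^ (2 : ℝ) = x := by
    intro x
    rw [← ENNReal.rpow_mul]
    norm_num
  simp only [e, Pi.mul_apply] at h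
  exact h

/-- Loomis-Whitney. -/
theorem lw (A B C : ℝ → ℝ → ℝ≥0∞) (hA : Measurable (Function.uncurry A))
    (hB : Measurable (Function.uncurry B)) (hC : Measurable (Function.uncurry C)) :
    ∫⁻ x, ∫⁻ y, ∫⁻ z, A y z ^ (1 / 2 : ℝ) * B x z ^ (1 / 2 : ℝ) * C x y ^ (1 / 2 : ℝ)
      ≤ (∫⁻ y, ∫⁻ z, A y z) ^ (1 / 2 : ℝ) * (∫⁻ x, ∫⁻ z, B x z) ^ (1 / 2 : ℝ)
        * (∫⁻ x, ∫⁻ y, C x y) ^ (1 / 2 : ℝ) := by
  have hA' : ∀ y, Measurable (A y) := fun y => hA.comp (measurable_prodMk_left (x := y))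
  have hB' : ∀ y, Measurable (B y) := fun y => hB.comp (measurable_prodMk_left (x := y))
  have hC' : ∀ y, Measurable (C y) := fun y => hC.comp (measurable_prodMk_left (x := y))
  have ha : Measurable fun y => ∫⁻ z, A y z := hA.lintegral_prod_right
  have hb : Measurable fun y => ∫⁻ z, B y z := hB.lintegral_prod_right
  have hc : Measurable fun y => ∫⁻ z, C y z := hC.lintegral_prod_right
  calc ∫⁻ x, ∫⁻ y, ∫⁻ z, A y z ^ (1 / 2 : ℝ) * B x z ^ (1 / 2 : ℝ) * C x y ^ (1 / 2 : ℝ)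
      ≤ ∫⁻ x, ∫⁻ y, (∫⁻ z, A y z) ^ (1 / 2 : ℝ) * (∫⁻ z, B x z) ^ (1 / 2 : ℝ)
          * C x y ^ (1 / 2 : ℝ) := by
        refine lintegral_mono fun x => lintegral_mono fun y => ?_
        have m : Measurable fun z => A y z ^ (1 / 2 : ℝ) * B x z ^ (1 / 2 : ℝ) :=
          ((hA' y).pow_const _).mul ((hB' x).pow_const _)
        simp only
        rw [lintegral_mul_const _ m]
        gcongr
        exact cs (hA' y).aemeasurable (hB' x).aemeasurable
    _ = ∫⁻ x, (∫⁻ z, B x z) ^ (1 / 2 : ℝ) * ∫⁻ y, (∫⁻ z, A y z) ^ (1 / 2 : ℝ)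
          * C x y ^ (1 / 2 : ℝ) := by
        refine lintegral_congr fun x => ?_
        have m : Measurable fun y => (∫⁻ z, A y z) ^ (1 / 2 : ℝ) * C x y ^ (1 / 2 : ℝ) :=
          (ha.pow_const _).mul ((hC' x).pow_const _)
        rw [← lintegral_const_mul _ m]
        refine lintegral_congr fun y => ?_
        ring
    _ ≤ ∫⁻ x, (∫⁻ z, B x z) ^ (1 / 2 : ℝ) * ((∫⁻ y, ∫⁻ z, A y z) ^ (1 / 2 : ℝ)
          * (∫⁻ y, C x y) ^ (1 / 2 : ℝ)) := by
        refine lintegral_mono fun x => ?_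
        simp only
        gcongr
        exact cs ha.aemeasurable (hC' x).aemeasurable
    _ = (∫⁻ y, ∫⁻ z, A y z) ^ (1 / 2 : ℝ) * ∫⁻ x, (∫⁻ z, B x z) ^ (1 / 2 : ℝ)
          * (∫⁻ y, C x y) ^ (1 / 2 : ℝ) := by
        have m : Measurable fun x => (∫⁻ z, B x z) ^ (1 / 2 : ℝ) * (∫⁻ y, C x y) ^ (1 / 2 : ℝ) :=
          (hb.pow_const _).mul (hc.pow_const _)
        rw [← lintegral_const_mul _ m]
        refine lintegral_congr fun y => ?_
        ring
    _ ≤ (∫⁻ y, ∫⁻ z, A y z) ^ (1 / 2 : ℝ) * ((∫⁻ x, ∫⁻ z, B x z) ^ (1 / 2 : ℝ)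
          * (∫⁻ x, ∫⁻ y, C x y) ^ (1 / 2 : ℝ)) := by
        gcongr
        exact cs hb.aemeasurable hc.aemeasurable
    _ = _ := by ring

/-- Integration in an orthonormal frame. -/
theorem lint_frame (b : OrthonormalBasis (Fin 3) ℝ E3) {f : E3 → ℝ≥0∞} (hf : Measurable f) :
    ∫⁻ p, f p = ∫⁻ x : ℝ, ∫⁻ y : ℝ, ∫⁻ z : ℝ, f (x • b 0 + y • b 1 + z • b 2) := by
  have h1 : MeasurePreserving (b.repr.symm : E3 → E3) volume volume :=
    b.repr.symm.measurePreserving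
  have h2 : MeasurePreserving (@WithLp.toLp 2 (Fin 3 → ℝ)) := PiLp.volume_preserving_toLp (Fin 3)
  have h3 := (volume_preserving_piFinSuccAbove (fun _ : Fin 3 => ℝ) 0).symm
  have h4 := (volume_preserving_finTwoArrow ℝ).symm
  have m0 : Measurable fun c : E3 => f (b.repr.symm c) := hf.comp h1.measurable
  have e1 : ∫⁻ p, f p = ∫⁻ c : Fin 3 → ℝ, f (b.repr.symm (WithLp.toLp 2 c)) := by
    rw [← h1.lintegral_comp hf]
    exact (h2.lintegral_comp m0).symm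
  have m1 : Measurable fun c : Fin 3 → ℝ => f (b.repr.symm (WithLp.toLp 2 c)) :=
    m0.comp h2.measurable
  rw [e1, ← h3.lintegral_comp m1, Measure.volume_eq_prod, lintegral_prod _ (by
    exact (m1.comp h3.measurable).aemeasurable)]
  refine lintegral_congr fun x => ?_
  have m2 : Measurable fun c : Fin 2 → ℝ => f (b.repr.symm (WithLp.toLp 2
      ((MeasurableEquiv.piFinSuccAbove (fun _ : Fin 3 => ℝ) 0).symm (x, c)))) :=
    (m1.comp h3.measurable).comp (measurable_prodMk_left (x := x))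
  rw [← h4.lintegral_comp m2, Measure.volume_eq_prod, lintegral_prod _ (by
    exact (m2.comp h4.measurable).aemeasurable)]
  refine lintegral_congr fun y => lintegral_congr fun z => ?_
  congr 1
  have h5 := b.sum_repr_symm (WithLp.toLp 2
    ((MeasurableEquiv.piFinSuccAbove (fun _ : Fin 3 => ℝ) 0).symm
      (x, MeasurableEquiv.finTwoArrow.symm (y, z))))
  rw [← h5, Fin.sum_univ_three]
  rfl

end Q176.AN
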