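import Mathlib
import Pool.Agent.Q176.AN.LW

/-!
The anisotropic Sobolev inequality in an orthonormal frame.
-/

set_option linter.unusedSectionVars false

open MeasureTheory Set Filter Topology
open scoped InnerProductSpace ENNReal ContDiff NNReal

namespace Q176.AN

open H772R2.NS

theorem line {u : E3 → E3} (hu : ContDiff ℝ 1 u) (hc : HasCompactSupport u) (c e : E3)
    (he : e ≠ 0) (t : ℝ) :
    ‖u (c + t • e)‖ₑ ^ 4
      ≤ ∫⁻ s : ℝ, 4 * (‖u (c + s • e)‖ₑ ^ 3 * ‖fderiv ℝ u (c + s • e) e‖ₑ) := by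
  set L : ℝ → E3 := fun s => c + s • e with hL
  have hLd : ContDiff ℝ 1 L := contDiff_const.add (contDiff_id.smul contDiff_const)
  have hLe : IsClosedEmbedding L := by
    have h1 : IsClosedEmbedding (fun s : ℝ => s • e) := by
      have := (LinearMap.toSpanSingleton ℝ E3 e).isClosedEmbedding_of_injective (by
        rw [LinearMap.ker_eq_bot]
        intro a b hab
        simp only [LinearMap.toSpanSingleton_apply] at hab
        exact smul_left_injective ℝ he hab)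
      exact this
    exact (Homeomorph.addLeft c).isClosedEmbedding.comp h1
  set v : ℝ → E3 := fun s => u (L s) with hv
  have hvd : ContDiff ℝ 1 v := hu.comp hLd
  have hvc : HasCompactSupport v := hc.comp_isClosedEmbedding hLe
  set g : ℝ → ℝ := fun s => (‖v s‖ ^ 2) ^ 2 with hg
  have hgd : ContDiff ℝ 1 g := (hvd.norm_sq ℝ).pow 2
  have hgc : HasCompactSupport g := hvc.comp_left (g := fun w : E3 => (‖w‖ ^ 2) ^ 2) (by simp)
  have h := HasCompactSupport.enorm_le_lintegral_Ici_deriv hgd hgc t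
  have e1 : ‖g t‖ₑ = ‖u (c + t • e)‖ₑ ^ 4 := by
    simp only [hg, hv, hL]
    rw [enorm_pow, enorm_pow, enorm_norm, ← pow_mul]
  rw [← e1]
  refine h.trans ((lintegral_mono_set (subset_univ _)).trans ?_)
  rw [setLIntegral_univ]
  refine lintegral_mono fun s => ?_
  have hvs : HasDerivAt v (fderiv ℝ u (L s) e) s := by
    have h1 : HasFDerivAt u (fderiv ℝ u (L s)) (L s) :=
      (hu.differentiable one_ne_zero _).hasFDerivAt
    have h2 : HasDerivAt L e s := by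
      have := ((hasDerivAt_id s).smul_const e).const_add c
      simpa [hL] using this
    exact h1.comp_hasDerivAt s h2
  have hgs : HasDerivAt g (2 * ‖v s‖ ^ 2 * (2 * ⟪v s, fderiv ℝ u (L s) e⟫_ℝ)) s := by
    have := (hvs.norm_sq).fun_pow 2
    simpa [hg] using this
  rw [hgs.deriv]
  have h3 : |2 * ‖v s‖ ^ 2 * (2 * ⟪v s, fderiv ℝ u (L s) e⟫_ℝ)|
      ≤ 4 * (‖v s‖ ^ 3 * ‖fderiv ℝ u (L s) e‖) := by
    rw [abs_mul (2 * ‖v s‖ ^ 2), abs_mul (2 : ℝ) (⟪v s, fderiv ℝ u (L s) e⟫_ℝ),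
      abs_of_nonneg (show (0 : ℝ) ≤ 2 * ‖v s‖ ^ 2 by positivity),
      abs_of_nonneg (show (0 : ℝ) ≤ 2 by norm_num)]
    have := abs_real_inner_le_norm (v s) (fderiv ℝ u (L s) e)
    calc 2 * ‖v s‖ ^ 2 * (2 * |⟪v s, fderiv ℝ u (L s) e⟫_ℝ|)
        ≤ 2 * ‖v s‖ ^ 2 * (2 * (‖v s‖ * ‖fderiv ℝ u (L s) e‖)) := by gcongr
      _ = _ := by ring
  rw [← Real.norm_eq_abs] at h3
  have h4 := ENNReal.ofReal_le_ofReal h3
  rw [ofReal_norm, ENNReal.ofReal_mul (by norm_num), ENNReal.ofReal_mul (by positivity),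
    ENNReal.ofReal_pow (norm_nonneg _), ofReal_norm, ofReal_norm] at h4
  simpa using h4

/-- The anisotropic Sobolev inequality. -/
theorem aniso {u : E3 → E3} (hu : ContDiff ℝ 1 u) (hc : HasCompactSupport u)
    (b : OrthonormalBasis (Fin 3) ℝ E3) :
    (∫⁻ p, ‖u p‖ₑ ^ 6) ^ (1 / 2 : ℝ)
      ≤ 64 * ∏ i, (∫⁻ p, ‖fderiv ℝ u p (b i)‖ₑ ^ 2) ^ (1 / 2 : ℝ) := by
  have hb : ∀ i, b i ≠ 0 := fun i => b.orthonormal.ne_zero i
  set F : Fin 3 → E3 → ℝ≥0∞ := fun i p => 4 * (‖u p‖ₑ ^ 3 * ‖fderiv ℝ u p (b i)‖ₑ) with hF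
  have hcd : ∀ i, Continuous fun p => fderiv ℝ u p (b i) := fun i =>
    (hu.continuous_fderiv one_ne_zero).clm_apply continuous_const
  have hFm : ∀ i, Measurable (F i) := fun i =>
    ((hu.continuous.measurable.enorm.pow_const 3).mul (hcd i).measurable.enorm).const_mul 4
  set Φ : ℝ → ℝ → ℝ → E3 := fun x y z => x • b 0 + y • b 1 + z • b 2 with hΦ
  have hΦc : Continuous fun p : ℝ × ℝ × ℝ => Φ p.1 p.2.1 p.2.2 := by fun_prop
  set A : ℝ → ℝ → ℝ≥0∞ := fun y z => ∫⁻ x, F 0 (Φ x y z) with hA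
  set B : ℝ → ℝ → ℝ≥0∞ := fun x z => ∫⁻ y, F 1 (Φ x y z) with hB
  set C : ℝ → ℝ → ℝ≥0∞ := fun x y => ∫⁻ z, F 2 (Φ x y z) with hC
  have hAm : Measurable (Function.uncurry A) := by
    have : Measurable fun q : (ℝ × ℝ) × ℝ => F 0 (Φ q.2 q.1.1 q.1.2) :=
      (hFm 0).comp (by fun_prop)
    exact this.lintegral_prod_right'
  have hBm : Measurable (Function.uncurry B) := by
    have : Measurable fun q : (ℝ × ℝ) × ℝ => F 1 (Φ q.1.1 q.2 q.1.2) :=
      (hFm 1).comp (by fun_prop)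
    exact this.lintegral_prod_right'
  have hCm : Measurable (Function.uncurry C) := by
    have : Measurable fun q : (ℝ × ℝ) × ℝ => F 2 (Φ q.1.1 q.1.2 q.2) :=
      (hFm 2).comp (by fun_prop)
    exact this.lintegral_prod_right'
  have l0 : ∀ x y z, ‖u (Φ x y z)‖ₑ ^ 4 ≤ A y z := by
    intro x y z
    have := line hu hc (y • b 1 + z • b 2) (b 0) (hb 0) x
    have e : ∀ s : ℝ, y • b 1 + z • b 2 + s • b 0 = Φ s y z := fun s => by
      simp only [hΦ]; abel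
    simp only [e] at this
    exact this
  have l1 : ∀ x y z, ‖u (Φ x y z)‖ₑ ^ 4 ≤ B x z := by
    intro x y z
    have := line hu hc (x • b 0 + z • b 2) (b 1) (hb 1) y
    have e : ∀ s : ℝ, x • b 0 + z • b 2 + s • b 1 = Φ x s z := fun s => by
      simp only [hΦ]; abel
    simp only [e] at this
    exact this
  have l2 : ∀ x y z, ‖u (Φ x y z)‖ₑ ^ 4 ≤ C x y := by
    intro x y z
    have := line hu hc (x • b 0 + y • b 1) (b 2) (hb 2) z
    exact this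
  have i0 : ∫⁻ y, ∫⁻ z, A y z = ∫⁻ p, F 0 p := by
    rw [lint_frame b (hFm 0)]
    have s1 : ∀ y, ∫⁻ z, A y z = ∫⁻ x, ∫⁻ z, F 0 (Φ x y z) := by
      intro y
      refine lintegral_lintegral_swap ?_
      exact ((hFm 0).comp (show Measurable fun q : ℝ × ℝ => Φ q.2 y q.1 by fun_prop)).aemeasurable
    simp_rw [s1]
    refine lintegral_lintegral_swap (f := fun y x => ∫⁻ z, F 0 (Φ x y z)) ?_
    have : Measurable fun q : (ℝ × ℝ) × ℝ => F 0 (Φ q.1.2 q.1.1 q.2) :=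
      (hFm 0).comp (by fun_prop)
    exact this.lintegral_prod_right'.aemeasurable
  have i1 : ∫⁻ x, ∫⁻ z, B x z = ∫⁻ p, F 1 p := by
    rw [lint_frame b (hFm 1)]
    refine lintegral_congr fun x => ?_
    refine lintegral_lintegral_swap ?_
    exact ((hFm 1).comp (show Measurable fun q : ℝ × ℝ => Φ x q.2 q.1 by fun_prop)).aemeasurable
  have i2 : ∫⁻ x, ∫⁻ y, C x y = ∫⁻ p, F 2 p := by
    rw [lint_frame b (hFm 2)]
  set X : ℝ≥0∞ := (∫⁻ p, ‖u p‖ₑ ^ 6) ^ (1 / 2 : ℝ) with hX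
  set D : Fin 3 → ℝ≥0∞ := fun i => (∫⁻ p, ‖fderiv ℝ u p (b i)‖ₑ ^ 2) ^ (1 / 2 : ℝ) with hD
  have hFi : ∀ i, ∫⁻ p, F i p ≤ 4 * (X * D i) := by
    intro i
    simp only [hF]
    have m : Measurable fun p => ‖u p‖ₑ ^ 3 * ‖fderiv ℝ u p (b i)‖ₑ :=
      (hu.continuous.measurable.enorm.pow_const 3).mul (hcd i).measurable.enorm
    rw [lintegral_const_mul _ m]
    gcongr
    have h := ENNReal.lintegral_mul_le_Lp_mul_Lq (volume : Measure E3) Real.HolderConjugate.two_two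
      (f := fun p => ‖u p‖ₑ ^ 3) (g := fun p => ‖fderiv ℝ u p (b i)‖ₑ)
      (hu.continuous.measurable.enorm.pow_const 3).aemeasurable (hcd i).measurable.enorm.aemeasurable
    simp only [Pi.mul_apply] at h
    refine h.trans (le_of_eq ?_)
    simp only [hX, hD]
    have e1 : ∀ p, (‖u p‖ₑ ^ 3) ^ (2 : ℝ) = ‖u p‖ₑ ^ 6 := by
      intro p
      rw [ENNReal.rpow_two, ← pow_mul]
    simp only [e1, ENNReal.rpow_two]
  have hsq : ∀ x : ℝ≥0∞, (x ^ (1 / 2 : ℝ)) ^ 2 = x := by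
    intro x
    rw [← ENNReal.rpow_natCast, ← ENNReal.rpow_mul]
    norm_num
  have hmain : X ^ 2 ≤ (4 * (X * D 0)) ^ (1 / 2 : ℝ) * (4 * (X * D 1)) ^ (1 / 2 : ℝ)
      * (4 * (X * D 2)) ^ (1 / 2 : ℝ) := by
    calc X ^ 2 = ∫⁻ p, ‖u p‖ₑ ^ 6 := hsq _
      _ = ∫⁻ x : ℝ, ∫⁻ y : ℝ, ∫⁻ z : ℝ, ‖u (Φ x y z)‖ₑ ^ 6 := by
          rw [lint_frame b (hu.continuous.measurable.enorm.pow_const 6)]
      _ ≤ ∫⁻ x : ℝ, ∫⁻ y : ℝ, ∫⁻ z : ℝ, A y z ^ (1 / 2 : ℝ) * B x z ^ (1 / 2 : ℝ)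
          * C x y ^ (1 / 2 : ℝ) := by
          refine lintegral_mono fun x => lintegral_mono fun y => lintegral_mono fun z => ?_
          have e : ‖u (Φ x y z)‖ₑ ^ 6 = (‖u (Φ x y z)‖ₑ ^ 4) ^ (1 / 2 : ℝ)
              * (‖u (Φ x y z)‖ₑ ^ 4) ^ (1 / 2 : ℝ) * (‖u (Φ x y z)‖ₑ ^ 4) ^ (1 / 2 : ℝ) := by
            have : (‖u (Φ x y z)‖ₑ ^ 4) ^ (1 / 2 : ℝ) = ‖u (Φ x y z)‖ₑ ^ 2 := by
              rw [← ENNReal.rpow_natCast, ← ENNReal.rpow_natCast, ← ENNReal.rpow_mul]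
              norm_num
            rw [this]
            ring
          simp only
          rw [e]
          gcongr
          · exact l0 x y z
          · exact l1 x y z
          · exact l2 x y z
      _ ≤ _ := lw A B C hAm hBm hCm
      _ ≤ _ := by
          rw [i0, i1, i2]
          gcongr
          · exact hFi 0
          · exact hFi 1
          · exact hFi 2
  have hfin : X ≠ ⊤ := by
    have h6 : MemLp u 6 (volume : Measure E3) := hu.continuous.memLp_of_hasCompactSupport hc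
    have h7 := h6.2
    rw [eLpNorm_eq_lintegral_rpow_enorm_toReal (by norm_num) (by norm_num)] at h7
    have h8 : ∫⁻ p, ‖u p‖ₑ ^ 6 ≠ ⊤ := by
      intro hcon
      have : (∫⁻ p, ‖u p‖ₑ ^ (ENNReal.toReal 6)) = ⊤ := by
        rw [← hcon]
        refine lintegral_congr fun p => ?_
        rw [← ENNReal.rpow_natCast]
        norm_num
      rw [this] at h7
      simp at h7
    rw [hX]
    exact ENNReal.rpow_ne_top_of_nonneg (by norm_num) h8
  have h4 : X ^ 3 * X ≤ X ^ 3 * (64 * ∏ i, D i) := by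
    calc X ^ 3 * X = (X ^ 2) ^ 2 := by ring
      _ ≤ ((4 * (X * D 0)) ^ (1 / 2 : ℝ) * (4 * (X * D 1)) ^ (1 / 2 : ℝ)
          * (4 * (X * D 2)) ^ (1 / 2 : ℝ)) ^ 2 := by gcongr
      _ = 4 * (X * D 0) * (4 * (X * D 1)) * (4 * (X * D 2)) := by
          rw [mul_pow, mul_pow, hsq, hsq, hsq]
      _ = X ^ 3 * (64 * (D 0 * D 1 * D 2)) := by ring
      _ = _ := by rw [Fin.prod_univ_three]
  rcases eq_or_ne X 0 with h0 | h0
  · rw [h0]; exact zero_le
  · exact (ENNReal.mul_le_mul_iff_right (pow_ne_zero 3 h0) (ENNReal.pow_ne_top hfin)).mp h4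

end Q176.AN
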