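import Mathlib
import Pool.Agent.Q176.AN.Aniso

/-!
The anisotropic `L⁴` inequality on `H¹_{0,σ}(Ω)` and the enstrophy matrix.
-/

set_option linter.unusedSectionVars false

open MeasureTheory Set Filter Topology
open scoped InnerProductSpace ENNReal ContDiff NNReal

namespace Q176.AN

open H772R2.NS

/-- `A ↦ A e` -/
noncomputable def appL (e : E3) : M3 →L[ℝ] E3 :=
  LinearMap.toContinuousLinearMap
    { toFun := fun A => WithLp.toLp 2 fun i => ∑ j, A (i, j) * e j
      map_add' := fun A B => by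
        ext i
        simp [add_mul, Finset.sum_add_distrib]
      map_smul' := fun c A => by
        ext i
        simp [Finset.mul_sum, mul_assoc] }

theorem appL_apply (e : E3) (A : M3) (i : Fin 3) : appL e A i = ∑ j, A (i, j) * e j := rfl

theorem appL_jac (φ : E3 → E3) (x e : E3) : appL e (jac φ x) = fderiv ℝ φ x e := by
  have hv : e = ∑ j, e j • ev j := by
    ext i
    simp [Finset.sum_apply, Pi.single_apply]
  ext i
  rw [appL_apply]
  conv_rhs => rw [hv]
  rw [map_sum]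
  simp only [map_smul, PiLp.smul_apply, smul_eq_mul, WithLp.ofLp_sum, Finset.sum_apply, jac_apply]
  refine Finset.sum_congr rfl (fun j _ => ?_)
  simp [mul_comm]

theorem norm_appL_le (e : E3) (A : M3) : ‖appL e A‖ ≤ ‖A‖ * ‖e‖ := by
  have h : ‖appL e A‖ ^ 2 ≤ (‖A‖ * ‖e‖) ^ 2 := by
    rw [norm_sq_E3, mul_pow, norm_sq_M3, norm_sq_E3, Finset.sum_mul]
    refine Finset.sum_le_sum (fun i _ => ?_)
    rw [appL_apply]
    exact Finset.sum_mul_sq_le_sq_mul_sq _ _ _
  exact (pow_le_pow_iff_left₀ (norm_nonneg _) (by positivity) (by norm_num)).mp h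

variable {Ω : Set E3}

/-- the directional derivative `∂_e v` of `v` with gradient `z`. -/
noncomputable def dder (e : E3) (z : L2M Ω) : L2V Ω := (appL e).compLp z

theorem dder_coe (e : E3) (z : L2M Ω) :
    (dder e z : E3 → E3) =ᵐ[volume.restrict Ω] fun x => appL e (z x) :=
  (appL e).coeFn_compLp z

theorem continuous_dder (e : E3) : Continuous (dder (Ω := Ω) e) :=
  ((appL e).compLpL 2 (volume.restrict Ω)).continuous

theorem norm_dder_le (e : E3) (z : L2M Ω) : ‖dder e z‖ ≤ ‖z‖ * ‖e‖ := by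
  rw [mul_comm]
  refine Lp.norm_le_mul_norm_of_ae_le_mul ?_
  filter_upwards [dder_coe e z] with x hx
  rw [hx, mul_comm]
  exact norm_appL_le e (z x)

theorem IsTest.aniso_le (hΩ : MeasurableSet Ω) {φ : E3 → E3} (h : IsTest Ω φ)
    (b : OrthonormalBasis (Fin 3) ℝ E3) :
    (eLpNorm φ 4 (volume.restrict Ω)) ^ 4
      ≤ 64 * (eLpNorm φ 2 (volume.restrict Ω)
        * ∏ i, eLpNorm (fun x => appL (b i) (jac φ x)) 2 (volume.restrict Ω)) := by
  have hm : AEStronglyMeasurable φ (volume.restrict Ω) :=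
    h.smooth.continuous.aestronglyMeasurable
  refine (eLpNorm_four_le φ hm).trans ?_
  have h6 : (eLpNorm φ 6 (volume.restrict Ω)) ^ 3
      ≤ 64 * ∏ i, eLpNorm (fun x => appL (b i) (jac φ x)) 2 (volume.restrict Ω) := by
    have e6 : (eLpNorm φ 6 (volume : Measure E3)) ^ 3 = (∫⁻ x, ‖φ x‖ₑ ^ 6) ^ ((1 : ℝ) / 2) := by
      rw [eLpNorm_eq_lintegral_rpow_enorm_toReal (by norm_num) (by norm_num)]
      rw [← ENNReal.rpow_natCast, ← ENNReal.rpow_mul]
      norm_num
    have e2 : ∀ i, eLpNorm (fun x => appL (b i) (jac φ x)) 2 (volume.restrict Ω)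
        = (∫⁻ p, ‖fderiv ℝ φ p (b i)‖ₑ ^ 2) ^ (1 / 2 : ℝ) := by
      intro i
      have e1 : (fun x => appL (b i) (jac φ x)) = fun x => fderiv ℝ φ x (b i) :=
        funext fun x => appL_jac φ x (b i)
      rw [e1, ← eLpNorm_indicator_eq_eLpNorm_restrict hΩ]
      have e3 : Ω.indicator (fun x => fderiv ℝ φ x (b i)) = fun x => fderiv ℝ φ x (b i) := by
        rw [indicator_eq_self]
        intro x hx
        apply h.supp
        by_contra hcon
        apply hx
        have h0 : fderiv ℝ φ x = 0 := by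
          have : x ∉ tsupport (fderiv ℝ φ) := fun h => hcon (tsupport_fderiv_subset ℝ h)
          exact image_eq_zero_of_notMem_tsupport this
        simp [h0]
      rw [e3, eLpNorm_eq_lintegral_rpow_enorm_toReal (by norm_num) (by norm_num)]
      norm_num
    simp_rw [e2]
    calc (eLpNorm φ 6 (volume.restrict Ω)) ^ 3 ≤ (eLpNorm φ 6 (volume : Measure E3)) ^ 3 := by
          gcongr
          exact Measure.restrict_le_self
      _ ≤ _ := by
          rw [e6]
          exact aniso (h.smooth.of_le (by simp)) h.compact b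
  calc eLpNorm φ 2 (volume.restrict Ω) * (eLpNorm φ 6 (volume.restrict Ω)) ^ 3
      ≤ eLpNorm φ 2 (volume.restrict Ω)
        * (64 * ∏ i, eLpNorm (fun x => appL (b i) (jac φ x)) 2 (volume.restrict Ω)) := by gcongr
    _ = _ := by ring

/-- the anisotropic `L⁴` bound on `H¹_{0,σ}`. -/
theorem aniso_four_le (hΩ : MeasurableSet Ω) {p : L2V Ω × L2M Ω} (hp : p ∈ graphW Ω)
    (b : OrthonormalBasis (Fin 3) ℝ E3) :
    (eLpNorm p.1 4 (volume.restrict Ω)) ^ 4 ≤ 64 * (‖p.1‖ₑ * ∏ i, ‖dder (b i) p.2‖ₑ) := by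
  have hp' : p ∈ closure (preW Ω : Set (L2V Ω × L2M Ω)) := by
    have := hp
    unfold graphW at this
    rwa [← SetLike.mem_coe, Submodule.topologicalClosure_coe] at this
  obtain ⟨q, hq, hlim⟩ := mem_closure_iff_seq_limit.mp hp'
  have h1 : Tendsto (fun n => (q n).1) atTop (𝓝 p.1) := (continuous_fst.tendsto p).comp hlim
  have h2 : Tendsto (fun n => (q n).2) atTop (𝓝 p.2) := (continuous_snd.tendsto p).comp hlim
  have hmeas : TendstoInMeasure (volume.restrict Ω) (fun n => ((q n).1 : E3 → E3)) atTop p.1 :=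
    tendstoInMeasure_of_tendsto_Lp h1
  obtain ⟨ns, hns, hae⟩ := hmeas.exists_seq_tendsto_ae
  have hns' := hns.tendsto_atTop
  have hbd : ∀ n, (eLpNorm (q n).1 4 (volume.restrict Ω)) ^ 4
      ≤ 64 * (‖(q n).1‖ₑ * ∏ i, ‖dder (b i) (q n).2‖ₑ) := by
    intro n
    obtain ⟨φ, k1, k2, k3⟩ := hq n
    have k4 : ∀ i, ‖dder (b i) (q n).2‖ₑ
        = eLpNorm (fun x => appL (b i) (jac φ x)) 2 (volume.restrict Ω) := by
      intro i
      rw [Lp.enorm_def]
      apply eLpNorm_congr_ae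
      filter_upwards [dder_coe (b i) (q n).2, k3] with x h1 h2
      rw [h1, h2]
    simp_rw [k4]
    rw [Lp.enorm_def, eLpNorm_congr_ae k2, eLpNorm_congr_ae k2]
    exact IsTest.aniso_le hΩ k1 b
  have hR : Tendsto (fun n => 64 * (‖(q (ns n)).1‖ₑ * ∏ i, ‖dder (b i) (q (ns n)).2‖ₑ)) atTop
      (𝓝 (64 * (‖p.1‖ₑ * ∏ i, ‖dder (b i) p.2‖ₑ))) := by
    have a1 : Tendsto (fun n => ‖(q (ns n)).1‖ₑ) atTop (𝓝 ‖p.1‖ₑ) :=
      (continuous_enorm.tendsto _).comp (h1.comp hns')
    have a2 : ∀ i, Tendsto (fun n => ‖dder (b i) (q (ns n)).2‖ₑ) atTop (𝓝 ‖dder (b i) p.2‖ₑ) :=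
      fun i => (continuous_enorm.tendsto _).comp
        (((continuous_dder (b i)).tendsto _).comp (h2.comp hns'))
    have a3 : Tendsto (fun n => ∏ i, ‖dder (b i) (q (ns n)).2‖ₑ) atTop
        (𝓝 (∏ i, ‖dder (b i) p.2‖ₑ)) := by
      simp only [Fin.prod_univ_three]
      refine ENNReal.Tendsto.mul (ENNReal.Tendsto.mul (a2 0) (Or.inr enorm_ne_top) (a2 1)
        (Or.inr enorm_ne_top)) (Or.inr enorm_ne_top) (a2 2) (Or.inr ?_)
      exact ENNReal.mul_ne_top enorm_ne_top enorm_ne_top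
    refine ENNReal.Tendsto.const_mul ?_ (Or.inr (by simp))
    refine ENNReal.Tendsto.mul a1 (Or.inr ?_) a3 (Or.inr enorm_ne_top)
    exact (ENNReal.prod_ne_top fun i _ => enorm_ne_top)
  refine le_of_forall_gt (fun c hc => ?_)
  obtain ⟨c', hc'1, hc'2⟩ := exists_between hc
  refine lt_of_le_of_lt ?_ hc'2
  have hev : ∀ᶠ n in atTop, eLpNorm (q (ns n)).1 4 (volume.restrict Ω) ≤ c' ^ ((4 : ℝ)⁻¹) := by
    filter_upwards [hR.eventually (gt_mem_nhds hc'1)] with n hn
    have h5 := (hbd (ns n)).trans hn.le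
    rw [ENNReal.le_rpow_inv_iff (by norm_num)]
    have : (4 : ℝ) = ((4 : ℕ) : ℝ) := by norm_num
    rw [this, ENNReal.rpow_natCast]
    exact h5
  have h6 := Lp.eLpNorm_le_of_ae_tendsto hev (fun n => Lp.aestronglyMeasurable _) hae
  rw [ENNReal.le_rpow_inv_iff (by norm_num)] at h6
  have : (4 : ℝ) = ((4 : ℕ) : ℝ) := by norm_num
  rwa [this, ENNReal.rpow_natCast] at h6

end Q176.AN
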