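import Mathlib
import Pool.Agent.Q176.AN.Four

/-!
The enstrophy matrix `M_jk = ∫ ∂_j v · ∂_k v` and the bounds `‖v‖₄⁴ ≤ 64 ‖v‖ (det M)^{1/2}`,
`‖v‖₄⁴ ≤ 64 ‖v‖ ‖∂_w v‖ ‖∇v‖²`.
-/

set_option linter.unusedSectionVars false

open MeasureTheory Set Filter Topology
open scoped InnerProductSpace ENNReal ContDiff NNReal

namespace Q176.AN

open H772R2.NS

variable {Ω : Set E3}

theorem dder_sum (w : E3) (z : L2M Ω) : dder w z = ∑ j, w j • dder (ev j) z := by
  have hv : w = ∑ j, w j • ev j := by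
    ext i
    simp [Finset.sum_apply, Pi.single_apply]
  have h1 : ∀ A : M3, appL w A = ∑ j, w j • appL (ev j) A := by
    intro A
    ext i
    rw [appL_apply]
    simp only [Fin.sum_univ_three, PiLp.add_apply, PiLp.smul_apply, appL_apply, smul_eq_mul]
    simp
    ring
  apply Lp.ext
  have h2 := dder_coe w z
  have h3 : ∀ᵐ x ∂(volume.restrict Ω), ∀ j, (dder (ev j) z : E3 → E3) x = appL (ev j) (z x) := by
    rw [ae_all_iff]
    intro j
    exact dder_coe (ev j) z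
  have h4 : (↑(∑ j, w j • dder (ev j) z : L2V Ω) : E3 → E3)
      =ᵐ[volume.restrict Ω] fun x => ∑ j, w j • (dder (ev j) z : E3 → E3) x := by
    have a1 := Lp.coeFn_fun_finsetSum Finset.univ (fun j : Fin 3 => (w j • dder (ev j) z : L2V Ω))
    have a2 : ∀ᵐ x ∂(volume.restrict Ω), ∀ j, (w j • dder (ev j) z : L2V Ω) x
        = w j • (dder (ev j) z : E3 → E3) x := by
      rw [ae_all_iff]
      intro j
      exact Lp.coeFn_smul _ _
    filter_upwards [a1, a2] with x b1 b2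
    rw [b1]
    exact Finset.sum_congr rfl fun j _ => b2 j
  filter_upwards [h2, h3, h4] with x a b c
  rw [a, c, h1]
  exact Finset.sum_congr rfl fun j _ => by rw [b j]

/-- the enstrophy matrix -/
noncomputable def gramM (z : L2M Ω) : Matrix (Fin 3) (Fin 3) ℝ :=
  fun j k => ⟪dder (ev j) z, dder (ev k) z⟫_ℝ

theorem gramM_herm (z : L2M Ω) : (gramM z).IsHermitian := by
  ext j k
  simp [gramM, real_inner_comm]

theorem norm_dder_sq (w : E3) (z : L2M Ω) :
    ‖dder w z‖ ^ 2 = (w : Fin 3 → ℝ) ⬝ᵥ (gramM z).mulVec (w : Fin 3 → ℝ) := by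
  rw [← real_inner_self_eq_norm_sq, dder_sum, sum_inner]
  simp only [inner_sum, inner_smul_left, inner_smul_right, dotProduct, Matrix.mulVec, gramM]
  refine Finset.sum_congr rfl fun j _ => ?_
  rw [Finset.mul_sum]
  refine Finset.sum_congr rfl fun k _ => ?_
  simp
  ring

theorem prod_dder (z : L2M Ω) :
    (∏ i, ‖dder ((gramM_herm z).eigenvectorBasis i) z‖) ^ 2 = (gramM z).det := by
  rw [(gramM_herm z).det_eq_prod_eigenvalues, ← Finset.prod_pow]
  refine Finset.prod_congr rfl fun i _ => ?_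
  rw [norm_dder_sq, (gramM_herm z).mulVec_eigenvectorBasis i, dotProduct_smul]
  have h1 : ((gramM_herm z).eigenvectorBasis i : Fin 3 → ℝ)
      ⬝ᵥ ((gramM_herm z).eigenvectorBasis i : Fin 3 → ℝ) = 1 := by
    have h2 : ‖(gramM_herm z).eigenvectorBasis i‖ ^ 2 = 1 := by
      rw [(gramM_herm z).eigenvectorBasis.orthonormal.1 i]; norm_num
    rw [norm_sq_E3] at h2
    simp only [dotProduct, ← sq]
    exact h2
  rw [h1]
  simp

theorem gramM_det_nonneg (z : L2M Ω) : 0 ≤ (gramM z).det := by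
  rw [← prod_dder]; positivity

theorem ofReal_prod_norm (b : Fin 3 → E3) (z : L2M Ω) :
    ∏ i, ‖dder (b i) z‖ₑ = ENNReal.ofReal (∏ i, ‖dder (b i) z‖) := by
  rw [ENNReal.ofReal_prod_of_nonneg (fun _ _ => norm_nonneg _)]
  simp [ofReal_norm]

/-- `‖v‖₄⁴ ≤ 64 ‖v‖ (det M)^{1/2}`. -/
theorem four_le_det (hΩ : MeasurableSet Ω) {p : L2V Ω × L2M Ω} (hp : p ∈ graphW Ω) :
    (eLpNorm p.1 4 (volume.restrict Ω)) ^ 4
      ≤ ENNReal.ofReal (64 * (‖p.1‖ * Real.sqrt (gramM p.2).det)) := by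
  have h := aniso_four_le hΩ hp (gramM_herm p.2).eigenvectorBasis
  refine h.trans (le_of_eq ?_)
  rw [ofReal_prod_norm, ← prod_dder, Real.sqrt_sq (by positivity),
    ENNReal.ofReal_mul (by norm_num), ENNReal.ofReal_mul (norm_nonneg _), ofReal_norm]
  simp

/-- `‖v‖₄⁴ ≤ 64 ‖v‖ ‖∂_w v‖ ‖∇v‖²`. -/
theorem four_le_dir (hΩ : MeasurableSet Ω) {p : L2V Ω × L2M Ω} (hp : p ∈ graphW Ω) {w : E3}
    (hw : ‖w‖ = 1) :
    (eLpNorm p.1 4 (volume.restrict Ω)) ^ 4
      ≤ ENNReal.ofReal (64 * (‖p.1‖ * (‖dder w p.2‖ * ‖p.2‖ ^ 2))) := by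
  obtain ⟨b, hb⟩ := Orthonormal.exists_orthonormalBasis_extension_of_card_eq (𝕜 := ℝ) (E := E3)
    (ι := Fin 3) (by simp) (v := fun _ => w) (s := {0}) (by
      constructor
      · intro i; exact hw
      · intro i j hij
        exact absurd (Subsingleton.elim i j) hij)
  have hb0 : b 0 = w := hb 0 rfl
  have h := aniso_four_le hΩ hp b
  refine h.trans ?_
  rw [ofReal_prod_norm, ← ofReal_norm, ← ENNReal.ofReal_mul (norm_nonneg _)]
  have h64 : (64 : ℝ≥0∞) = ENNReal.ofReal 64 := by simp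
  rw [h64, ← ENNReal.ofReal_mul (by norm_num)]
  apply ENNReal.ofReal_le_ofReal
  rw [Fin.prod_univ_three, hb0]
  have h1 : ‖dder (b 1) p.2‖ ≤ ‖p.2‖ := by
    have := norm_dder_le (b 1) p.2
    rwa [b.orthonormal.1 1, mul_one] at this
  have h2 : ‖dder (b 2) p.2‖ ≤ ‖p.2‖ := by
    have := norm_dder_le (b 2) p.2
    rwa [b.orthonormal.1 2, mul_one] at this
  have h3 : ‖dder w p.2‖ * ‖dder (b 1) p.2‖ * ‖dder (b 2) p.2‖ ≤ ‖dder w p.2‖ * ‖p.2‖ ^ 2 := by
    rw [sq, mul_assoc]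
    gcongr
  gcongr

end Q176.AN
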