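import Mathlib
import Pool.Agent.H772R2.NS.Final2
import Pool.Agent.H772R2.NS.Cor2
import Pool.Agent.H772R2.NS.Cor3

/-!
Abstract tail bound, projection of the tensor `u ⊗ u` onto the gradients, tails of weak `L²`
functions, logarithmic tails.
-/

set_option linter.unusedSectionVars false

open MeasureTheory Set Filter Topology
open scoped InnerProductSpace ENNReal ContDiff NNReal

namespace Q176.AN

open H772R2.NS

section tails

variable {α : Type*} {mα : MeasurableSpace α} {μ : Measure α}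

theorem log_pos'' (x : ℝ) (hx : 0 ≤ x) : 0 < Real.log (Real.exp 1 + x) := by
  apply Real.log_pos
  have := Real.add_one_le_exp (1 : ℝ)
  linarith

theorem log_cmp' {x : ℝ} (hx : 0 ≤ x) :
    Real.log (Real.exp 1 + x) ≤ 2 * Real.log (Real.exp 1 + x ^ 2) := by
  have he : 2 ≤ Real.exp 1 := by
    have := Real.add_one_le_exp (1 : ℝ)
    linarith
  rw [show (2 : ℝ) * Real.log (Real.exp 1 + x ^ 2) = Real.log ((Real.exp 1 + x ^ 2) ^ 2) by
    rw [Real.log_pow]; norm_num]
  apply Real.log_le_log (by positivity)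
  nlinarith [sq_nonneg (x - 1), mul_nonneg (sub_nonneg.mpr he) (sq_nonneg x),
    mul_self_nonneg (Real.exp 1 - 2), sq_nonneg (x ^ 2)]

/-- logarithmic tails -/
theorem liminf_log {g : α → ℝ} {N : α → ℝ≥0∞} (hg0 : ∀ x, 0 ≤ g x) (hgm : AEMeasurable g μ)
    (hNm : AEMeasurable N μ)
    (hlog : ∫⁻ x, ENNReal.ofReal (g x / Real.log (Real.exp 1 + g x)) * N x ∂μ ≠ ⊤) :
    Filter.liminf (fun r : ℝ => ENNReal.ofReal r * ∫⁻ x in {x | r < g x}, N x ∂μ) atTop = 0 := by
  by_contra hne
  set a : ℝ → ℝ≥0∞ := fun r : ℝ => ENNReal.ofReal r * ∫⁻ x in {x | r < g x}, N x ∂μ with ha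
  have hpos : 0 < Filter.liminf a atTop := pos_iff_ne_zero.mpr hne
  obtain ⟨c, hc0, hc⟩ := exists_between hpos
  have hev : ∀ᶠ r in atTop, c < a r := eventually_lt_of_lt_liminf hc
  obtain ⟨r0, hr0⟩ := eventually_atTop.mp hev
  obtain ⟨n0, hn0⟩ := pow_unbounded_of_one_lt r0 (show (1 : ℝ) < 2 by norm_num)
  have hset : ∀ r : ℝ, NullMeasurableSet {x | r < g x} μ := fun r =>
    nullMeasurableSet_lt aemeasurable_const hgm
  -- the weighted sum
  have e1 : ∀ n : ℕ, ENNReal.ofReal (1 / ((n : ℝ) + 1)) * a ((2 : ℝ) ^ (n + 1))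
      = ∫⁻ x, N x * (if (4 : ℝ) ^ (n + 1) < g x ^ 2 then
        ENNReal.ofReal ((2 : ℝ) ^ (n + 1) / (n + 1)) else 0) ∂μ := by
    intro n
    have hiff : ∀ x, (4 : ℝ) ^ (n + 1) < g x ^ 2 ↔ (2 : ℝ) ^ (n + 1) < g x := by
      intro τ
      rw [show (4 : ℝ) = 2 ^ 2 by norm_num, ← pow_mul, mul_comm, pow_mul]
      exact pow_lt_pow_iff_left₀ (by positivity) (hg0 _) (by norm_num)
    have s2 : ∀ x, N x * (if (4 : ℝ) ^ (n + 1) < g x ^ 2 then
        ENNReal.ofReal ((2 : ℝ) ^ (n + 1) / (n + 1)) else 0)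
        = ENNReal.ofReal ((2 : ℝ) ^ (n + 1) / (n + 1))
          * {x | (2 : ℝ) ^ (n + 1) < g x}.indicator N x := by
      intro x
      by_cases hτ : (2 : ℝ) ^ (n + 1) < g x
      · rw [if_pos ((hiff x).mpr hτ), indicator_of_mem (by exact hτ), mul_comm]
      · rw [if_neg (fun hc => hτ ((hiff x).mp hc)), indicator_of_notMem (by exact hτ), mul_zero,
          mul_zero]
    simp_rw [s2]
    rw [lintegral_const_mul' _ _ ENNReal.ofReal_ne_top, lintegral_indicator₀ (hset _)]
    simp only [ha]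
    rw [← mul_assoc, ← ENNReal.ofReal_mul (by positivity)]
    congr 2
    ring
  have hmeas : ∀ n : ℕ, AEMeasurable (fun x => N x * (if (4 : ℝ) ^ (n + 1) < g x ^ 2 then
        ENNReal.ofReal ((2 : ℝ) ^ (n + 1) / (n + 1)) else 0)) μ := by
    intro n
    refine hNm.mul ?_
    have hs2 : NullMeasurableSet {x | (4 : ℝ) ^ (n + 1) < g x ^ 2} μ :=
      nullMeasurableSet_lt aemeasurable_const (hgm.pow_const 2)
    have := (aemeasurable_const (b := ENNReal.ofReal ((2 : ℝ) ^ (n + 1) / (n + 1)))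
      (μ := μ)).indicator₀ hs2
    refine this.congr (Eventually.of_forall (fun x => ?_))
    simp only [indicator, mem_ofPred_eq]
  have hup : ∑' n : ℕ, ENNReal.ofReal (1 / ((n : ℝ) + 1)) * a ((2 : ℝ) ^ (n + 1)) < ⊤ := by
    simp_rw [e1]
    rw [← lintegral_tsum hmeas]
    have hle : ∫⁻ x, ∑' n : ℕ, N x * (if (4 : ℝ) ^ (n + 1) < g x ^ 2 then
        ENNReal.ofReal ((2 : ℝ) ^ (n + 1) / (n + 1)) else 0) ∂μ
        ≤ ∫⁻ x, ENNReal.ofReal 28 * (ENNReal.ofReal
          (g x / Real.log (Real.exp 1 + g x)) * N x) ∂μ := by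
      refine lintegral_mono (fun τ => ?_)
      simp only
      rw [ENNReal.tsum_mul_left]
      have hx : 0 ≤ g τ := hg0 τ
      have hw := weights_le (g τ ^ 2) (by positivity)
      rw [Real.sqrt_sq hx] at hw
      have hl1 := log_pos'' (g τ) hx
      have hl2 := log_pos'' (g τ ^ 2) (by positivity)
      have hcmp : 14 * (g τ / Real.log (Real.exp 1 + g τ ^ 2))
          ≤ 28 * (g τ / Real.log (Real.exp 1 + g τ)) := by
        rw [mul_div_assoc', mul_div_assoc', div_le_div_iff₀ hl2 hl1]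
        have := log_cmp' hx
        nlinarith
      calc N τ * ∑' n : ℕ, (if (4 : ℝ) ^ (n + 1) < g τ ^ 2 then
            ENNReal.ofReal ((2 : ℝ) ^ (n + 1) / (n + 1)) else 0)
          ≤ N τ * ENNReal.ofReal (28 * (g τ / Real.log (Real.exp 1 + g τ))) := by
            refine mul_le_mul' le_rfl (hw.trans (ENNReal.ofReal_le_ofReal hcmp))
        _ = _ := by
            rw [ENNReal.ofReal_mul (by norm_num)]
            ring
    refine hle.trans_lt ?_
    rw [lintegral_const_mul' _ _ ENNReal.ofReal_ne_top]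
    exact ENNReal.mul_lt_top ENNReal.ofReal_lt_top (lt_top_iff_ne_top.mpr hlog)
  -- divergence
  have hdiv : ∑' n : ℕ, ENNReal.ofReal (1 / ((n : ℝ) + 1)) * a ((2 : ℝ) ^ (n + 1)) = ⊤ := by
    have hns : ¬ Summable (fun n : ℕ => 1 / (((n + n0 : ℕ) : ℝ) + 1)) := by
      intro hcon
      have h1 := (summable_nat_add_iff (f := fun n : ℕ => 1 / ((n : ℝ) + 1)) n0).mp hcon
      have h2 : Summable (fun n : ℕ => 1 / (((n + 1 : ℕ)) : ℝ)) := by
        refine h1.congr (fun n => ?_)
        push_cast; rfl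
      have h3 := (summable_nat_add_iff (f := fun n : ℕ => 1 / (n : ℝ)) 1).mp h2
      exact Real.not_summable_one_div_natCast h3
    have htop : ∑' n : ℕ, ENNReal.ofReal (1 / (((n + n0 : ℕ) : ℝ) + 1)) = ⊤ := by
      by_contra hcon
      apply hns
      have := ENNReal.summable_toReal hcon
      refine this.congr (fun n => ?_)
      rw [ENNReal.toReal_ofReal (by positivity)]
    have hlow : ∑' n : ℕ, ENNReal.ofReal (1 / (((n + n0 : ℕ) : ℝ) + 1)) * c
        ≤ ∑' n : ℕ, ENNReal.ofReal (1 / ((n : ℝ) + 1)) * a ((2 : ℝ) ^ (n + 1)) := by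
      have h1 : ∑' n : ℕ, ENNReal.ofReal (1 / (((n + n0 : ℕ) : ℝ) + 1)) * c
          ≤ ∑' n : ℕ, ENNReal.ofReal (1 / (((n + n0 : ℕ) : ℝ) + 1))
            * a ((2 : ℝ) ^ ((n + n0) + 1)) := by
        refine ENNReal.tsum_le_tsum (fun n => ?_)
        gcongr
        apply (hr0 _ _).le
        refine hn0.le.trans (pow_le_pow_right₀ (by norm_num) (by omega))
      refine h1.trans ?_
      exact ENNReal.tsum_comp_le_tsum_of_injective (add_left_injective n0)
        (fun n : ℕ => ENNReal.ofReal (1 / ((n : ℝ) + 1)) * a ((2 : ℝ) ^ (n + 1)))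
    rw [ENNReal.tsum_mul_right, htop, ENNReal.top_mul hc0.ne'] at hlow
    exact top_le_iff.mp hlow
  rw [hdiv] at hup
  exact lt_irrefl _ hup

/-- the tails of an integrable function -/
theorem tail_zero {g : α → ℝ} (hg0 : ∀ x, 0 ≤ g x) (hgm : AEMeasurable g μ)
    (hg2 : Integrable (fun x => g x ^ 2) μ) :
    Tendsto (fun r : ℝ => ∫⁻ x in {x | r < g x}, ENNReal.ofReal (g x ^ 2) ∂μ) atTop (𝓝 0) := by
  have hset : ∀ r : ℝ, NullMeasurableSet {x | r < g x} μ := fun r =>
    nullMeasurableSet_lt aemeasurable_const hgm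
  have hreal : Tendsto (fun r : ℝ => ∫ x,
      {x | r < g x}.indicator (fun x => g x ^ 2) x ∂μ) atTop (𝓝 (∫ _, (0 : ℝ) ∂μ)) := by
    refine tendsto_integral_filter_of_dominated_convergence (fun x => g x ^ 2) ?_ ?_ hg2 ?_
    · exact Eventually.of_forall (fun r => hg2.aestronglyMeasurable.indicator₀ (hset r))
    · refine Eventually.of_forall (fun r => Eventually.of_forall (fun τ => ?_))
      by_cases hτ : τ ∈ {x | r < g x}
      · rw [indicator_of_mem hτ]; simp
      · rw [indicator_of_notMem hτ]; simp; positivity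
    · refine Eventually.of_forall (fun τ => ?_)
      refine (tendsto_congr' ?_).mpr tendsto_const_nhds
      filter_upwards [eventually_ge_atTop (g τ)] with r hr
      rw [indicator_of_notMem]
      simp [hr]
  have h5 := (ENNReal.continuous_ofReal.tendsto _).comp hreal
  simp only [integral_zero, ENNReal.ofReal_zero] at h5
  refine h5.congr (fun r => ?_)
  simp only [Function.comp]
  rw [ofReal_integral_eq_lintegral_ofReal (hg2.indicator₀ (hset r))
    (Eventually.of_forall (fun τ => indicator_nonneg (fun _ _ => by positivity) τ)),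
    ← lintegral_indicator₀ (hset r)]
  refine lintegral_congr (fun τ => ?_)
  by_cases hτ : τ ∈ {x | r < g x}
  · rw [indicator_of_mem hτ, indicator_of_mem hτ]
  · rw [indicator_of_notMem hτ, indicator_of_notMem hτ, ENNReal.ofReal_zero]

/-- tails of functions in weak `L²` over the level sets of functions in `L²`. -/
theorem liminf_weak {g : α → ℝ} {N : α → ℝ≥0∞} (hg0 : ∀ x, 0 ≤ g x) (hgm : AEMeasurable g μ)
    (hg2 : Integrable (fun x => g x ^ 2) μ) (hNm : AEMeasurable N μ) {C : ℝ}
    (hC : ∀ l : ℝ, 0 < l → μ {x | ENNReal.ofReal l < N x} ≤ ENNReal.ofReal (C / l ^ 2)) :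
    Filter.liminf (fun r : ℝ => ENNReal.ofReal r * ∫⁻ x in {x | r < g x}, N x ∂μ) atTop = 0 := by
  have hset : ∀ r : ℝ, NullMeasurableSet {x | r < g x} μ := fun r =>
    nullMeasurableSet_lt aemeasurable_const hgm
  set C' := max C 0 with hC'
  have hC0 : 0 ≤ C' := le_max_right _ _
  have hw : ∀ l : ℝ, 0 < l → μ {x | ENNReal.ofReal l < N x} ≤ ENNReal.ofReal (C' / l ^ 2) := by
    intro l hl
    refine (hC l hl).trans (ENNReal.ofReal_le_ofReal ?_)
    gcongr
    exact le_max_left _ _
  have hlim := tail_zero hg0 hgm hg2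
  refine le_antisymm ?_ zero_le
  refine ENNReal.le_of_forall_pos_le_add (fun ε hε _ => ?_)
  rw [zero_add]
  have hε' : (0 : ℝ) < ε := by exact_mod_cast hε
  let η : ℝ := ε / (1 + 2 * C')
  have hη : 0 < η := by positivity
  have hev : ∀ᶠ r : ℝ in atTop, ENNReal.ofReal r * ∫⁻ x in {x | r < g x}, N x ∂μ ≤ ε := by
    have hη2 : (0 : ℝ≥0∞) < ENNReal.ofReal (η ^ 2) := by simp; positivity
    filter_upwards [hlim.eventually (gt_mem_nhds hη2), eventually_gt_atTop 0] with r h1 hr
    have hE : ENNReal.ofReal (r ^ 2) * μ {x | r < g x} ≤ ENNReal.ofReal (η ^ 2) := by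
      refine le_trans ?_ h1.le
      rw [← setLIntegral_const]
      refine lintegral_mono_ae ?_
      filter_upwards [ae_restrict_mem₀ (hset r)] with τ hτ
      have : r < g τ := hτ
      apply ENNReal.ofReal_le_ofReal
      gcongr
    have hmain := weak_int_le hNm hC0 hw {x | r < g x} (R := r / η) (by positivity)
    calc ENNReal.ofReal r * ∫⁻ x in {x | r < g x}, N x ∂μ
        ≤ ENNReal.ofReal r * (ENNReal.ofReal (r / η) * μ {x | r < g x}
          + ENNReal.ofReal (2 * C' / (r / η))) := by gcongr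
      _ = ENNReal.ofReal (1 / η) * (ENNReal.ofReal (r ^ 2) * μ {x | r < g x})
          + ENNReal.ofReal r * ENNReal.ofReal (2 * C' / (r / η)) := by
          have e3 : ENNReal.ofReal r * ENNReal.ofReal (r / η)
              = ENNReal.ofReal (1 / η) * ENNReal.ofReal (r ^ 2) := by
            rw [← ENNReal.ofReal_mul hr.le, ← ENNReal.ofReal_mul (by positivity)]
            congr 1
            field_simp
          rw [mul_add, ← mul_assoc, ← mul_assoc, e3]
      _ ≤ ENNReal.ofReal (1 / η) * ENNReal.ofReal (η ^ 2)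
          + ENNReal.ofReal r * ENNReal.ofReal (2 * C' / (r / η)) := by gcongr
      _ = ENNReal.ofReal (η + 2 * C' * η) := by
          rw [← ENNReal.ofReal_mul (by positivity), ← ENNReal.ofReal_mul hr.le,
            ← ENNReal.ofReal_add (by positivity) (by positivity)]
          congr 1
          field_simp
      _ = ε := by
          have : η + 2 * C' * η = ε := by
            simp only [η]
            field_simp
          rw [this, ENNReal.ofReal_coe_nnreal]
  exact liminf_le_of_frequently_le' hev.frequently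

end tails

section abstract

variable {H K : Type} [NormedAddCommGroup H] [InnerProductSpace ℝ H] [CompleteSpace H]
  [NormedAddCommGroup K] [InnerProductSpace ℝ K] [CompleteSpace K]
  {W : Submodule ℝ (H × K)} {T M ν : ℝ} {u : ℝ → H} {G m : ℝ → K} {f : ℝ → H}

/-- projection of the tensor onto the gradients. -/
theorem sol_proj (S : Sol W T M ν u G m f) (P : Submodule ℝ K) [P.HasOrthogonalProjection]
    (hP : ∀ p ∈ W, p.2 ∈ P) : Sol W T M ν u G (fun τ => P.starProjection (m τ)) f where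
  T0 := S.T0
  ν0 := S.ν0
  closedW := S.closedW
  uniq := S.uniq
  wcont := S.wcont
  bdd := S.bdd
  umeas := S.umeas
  memW := S.memW
  Gmeas := S.Gmeas
  G2 := S.G2
  fint := S.fint
  mint := P.starProjection.integrable_comp S.mint
  ortho := by
    filter_upwards [S.ortho, S.memW] with τ h1 h2
    rw [Submodule.inner_starProjection_left_eq_right,
      P.starProjection_eq_self_iff.mpr (hP _ h2)]
    exact h1
  weak := fun p hp s t hs hst ht => by
    rw [S.weak p hp s t hs hst ht]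
    congr 1
    ext τ
    rw [Submodule.inner_starProjection_left_eq_right,
      P.starProjection_eq_self_iff.mpr (hP _ hp)]

/-- the tail bound. -/
theorem sol_tail (S : Sol W T M ν u G m f) {s t : ℝ} (hs : 0 ≤ s) (hst : s ≤ t) (ht : t ≤ T) :
    ENNReal.ofReal |defect ν u G f t - defect ν u G f s|
      ≤ Filter.liminf (fun r : ℝ => ENNReal.ofReal r
        * ∫⁻ τ in {τ | r < ‖G τ‖}, ‖m τ‖ₑ ∂(volume.restrict (Ioo s t))) atTop := by
  refine ENNReal.le_of_forall_pos_le_add (fun ε hε _ => ?_)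
  rw [← tsub_le_iff_right]
  obtain ⟨h0, hh0⟩ := S.lam hs hst ht (ε : ℝ) (by exact_mod_cast hε)
  refine le_liminf_of_le (by isBoundedDefault) ?_
  filter_upwards [eventually_ge_atTop h0, eventually_ge_atTop 0] with r hr hr0
  rw [tsub_le_iff_right]
  have h1 := hh0 r hr
  have hsub : Ioc s t ⊆ Ioc 0 T := Ioc_subset_Ioc hs ht
  have hint : Integrable m (volume.restrict (Ioc s t ∩ {τ | r < ‖G τ‖})) :=
    (IntegrableOn.mono_set S.mint hsub).mono_set inter_subset_left
  have hset : NullMeasurableSet {τ | r < ‖G τ‖} (volume.restrict (Ioo s t)) :=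
    nullMeasurableSet_lt aemeasurable_const
      (S.Gmeas.mono_measure (Measure.restrict_mono (Ioo_subset_Ioc_self.trans hsub)
        le_rfl)).norm.aemeasurable
  have e1 : ENNReal.ofReal (∫ τ in Ioc s t ∩ {τ | r < ‖G τ‖}, ‖m τ‖)
      = ∫⁻ τ in {τ | r < ‖G τ‖}, ‖m τ‖ₑ ∂(volume.restrict (Ioo s t)) := by
    rw [ofReal_integral_norm_eq_lintegral_enorm hint, Measure.restrict_restrict₀ hset,
      inter_comm {τ | r < ‖G τ‖}]
    have e2 : (volume.restrict (Ioc s t ∩ {τ | r < ‖G τ‖}) : Measure ℝ)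
        = volume.restrict (Ioo s t ∩ {τ | r < ‖G τ‖}) := by
      apply Measure.restrict_congr_set
      exact (Ioo_ae_eq_Ioc.symm).inter (ae_eq_refl _)
    rw [e2]
  calc ENNReal.ofReal |defect ν u G f t - defect ν u G f s|
      ≤ ENNReal.ofReal (r * (∫ τ in Ioc s t ∩ {τ | r < ‖G τ‖}, ‖m τ‖) + ε) :=
        ENNReal.ofReal_le_ofReal h1
    _ ≤ ENNReal.ofReal (r * (∫ τ in Ioc s t ∩ {τ | r < ‖G τ‖}, ‖m τ‖))
        + ENNReal.ofReal ε := ENNReal.ofReal_add_le
    _ = _ := by
        rw [ENNReal.ofReal_mul hr0, e1, ENNReal.ofReal_coe_nnreal]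

end abstract

end Q176.AN
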