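import Mathlib
import Pool.Agent.Q176.AN.Proj

/-!
The norm of `(v·∇)v` in the dual of `H¹_{0,σ}`.
-/

set_option linter.unusedSectionVars false

open MeasureTheory Set Filter Topology
open scoped InnerProductSpace ENNReal ContDiff NNReal

namespace Q176.AN

open H772R2.NS

variable {Ω : Set E3}

/-- the closure of the gradients. -/
noncomputable def gradK (Ω : Set E3) : Submodule ℝ (L2M Ω) :=
  ((preW Ω).map (LinearMap.snd ℝ (L2V Ω) (L2M Ω))).topologicalClosure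

noncomputable instance (Ω : Set E3) : CompleteSpace (gradK Ω) :=
  (Submodule.isClosed_topologicalClosure _).completeSpace_coe

theorem mem_gradK {p : L2V Ω × L2M Ω} (hp : p ∈ graphW Ω) : p.2 ∈ gradK Ω := by
  have hp' : p ∈ closure (preW Ω : Set (L2V Ω × L2M Ω)) := by
    have := hp
    unfold graphW at this
    rwa [← SetLike.mem_coe, Submodule.topologicalClosure_coe] at this
  unfold gradK
  rw [← SetLike.mem_coe, Submodule.topologicalClosure_coe]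
  refine map_mem_closure continuous_snd hp' (fun q hq => ?_)
  exact ⟨q, hq, rfl⟩

/-- the pairing `∫ (v ⊗ v) : ∇φ`. -/
noncomputable def pair (v : L2V Ω) (φ : E3 → E3) : ℝ := ∫ x in Ω, ⟪tens (v x), jac φ x⟫_ℝ

/-- the norm of `(v·∇)v` in the dual of `H¹_{0,σ}`. -/
noncomputable def convN (v : L2V Ω) : ℝ≥0∞ :=
  ⨆ φ : E3 → E3, ⨆ (_ : IsTest Ω φ), ⨆ (_ : ∫ x in Ω, ‖jac φ x‖ ^ 2 ≤ 1),
    ENNReal.ofReal (pair v φ)

theorem pair_eq (hΩ : MeasurableSet Ω) {p : L2V Ω × L2M Ω} (hp : p ∈ graphW Ω) {φ : E3 → E3}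
    {q : L2M Ω} (hq : q =ᵐ[volume.restrict Ω] jac φ) : pair p.1 φ = ⟪tensL p.1, q⟫_ℝ := by
  rw [L2.inner_def]
  apply integral_congr_ae
  filter_upwards [tensL_coe hΩ hp, hq] with x a b
  rw [a, b]

theorem norm_sq_q {φ : E3 → E3} {q : L2M Ω} (hq : q =ᵐ[volume.restrict Ω] jac φ) :
    ‖q‖ ^ 2 = ∫ x in Ω, ‖jac φ x‖ ^ 2 := by
  rw [← real_inner_self_eq_norm_sq, L2.inner_def]
  apply integral_congr_ae
  filter_upwards [hq] with x a
  rw [a, real_inner_self_eq_norm_sq]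

theorem inner_le_conv (hΩ : MeasurableSet Ω) {p : L2V Ω × L2M Ω} (hp : p ∈ graphW Ω)
    (hfin : convN p.1 ≠ ⊤) {w : L2M Ω} (hw : w ∈ gradK Ω) :
    ⟪tensL p.1, w⟫_ℝ ≤ (convN p.1).toReal * ‖w‖ := by
  have hclosed : IsClosed {w : L2M Ω | ⟪tensL p.1, w⟫_ℝ ≤ (convN p.1).toReal * ‖w‖} :=
    isClosed_le (by fun_prop) (by fun_prop)
  have hw' : w ∈ closure ((preW Ω).map (LinearMap.snd ℝ (L2V Ω) (L2M Ω)) : Set (L2M Ω)) := by
    have := hw
    unfold gradK at this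
    rwa [← SetLike.mem_coe, Submodule.topologicalClosure_coe] at this
  refine closure_minimal ?_ hclosed hw'
  rintro w ⟨q, ⟨φ, h1, h2, h3⟩, rfl⟩
  show ⟪tensL p.1, q.2⟫_ℝ ≤ (convN p.1).toReal * ‖q.2‖
  rcases eq_or_ne ‖q.2‖ 0 with h0 | h0
  · have : q.2 = 0 := norm_eq_zero.mp h0
    rw [this]; simp
  · have hpos : 0 < ‖q.2‖ := lt_of_le_of_ne (norm_nonneg _) (Ne.symm h0)
    set n := ‖q.2‖ with hn
    have t1 : IsTest Ω (n⁻¹ • φ) := h1.smul n⁻¹
    have t2 : (n⁻¹ • q.2 : L2M Ω) =ᵐ[volume.restrict Ω] jac (n⁻¹ • φ) := by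
      refine (Lp.coeFn_smul n⁻¹ q.2).trans ?_
      filter_upwards [h3] with x a
      simp [a, jac_smul]
    have t3 : ∫ x in Ω, ‖jac (n⁻¹ • φ) x‖ ^ 2 ≤ 1 := by
      rw [← norm_sq_q t2, norm_smul, ← hn]
      rw [Real.norm_of_nonneg (by positivity), inv_mul_cancel₀ h0]
      norm_num
    have t4 : ENNReal.ofReal (pair p.1 (n⁻¹ • φ)) ≤ convN p.1 := by
      unfold convN
      exact le_iSup_of_le (n⁻¹ • φ) (le_iSup_of_le t1 (le_iSup_of_le t3 le_rfl))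
    have t5 : pair p.1 (n⁻¹ • φ) ≤ (convN p.1).toReal := by
      rcases le_or_gt (pair p.1 (n⁻¹ • φ)) 0 with hle | hgt
      · exact hle.trans ENNReal.toReal_nonneg
      · have := ENNReal.toReal_mono hfin t4
        rwa [ENNReal.toReal_ofReal hgt.le] at this
    rw [pair_eq hΩ hp t2, inner_smul_right] at t5
    calc ⟪tensL p.1, q.2⟫_ℝ = (n⁻¹ * ⟪tensL p.1, q.2⟫_ℝ) * n := by field_simp
      _ ≤ (convN p.1).toReal * n := by gcongr

/-- `‖P (v ⊗ v)‖ ≤ ‖(v·∇)v‖_{-1}`. -/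
theorem proj_le_conv (hΩ : MeasurableSet Ω) {p : L2V Ω × L2M Ω} (hp : p ∈ graphW Ω) :
    ‖(gradK Ω).starProjection (tensL p.1)‖ₑ ≤ convN p.1 := by
  rcases eq_or_ne (convN p.1) ⊤ with hfin | hfin
  · rw [hfin]; exact le_top
  set w := (gradK Ω).starProjection (tensL p.1) with hw
  have hwm : w ∈ gradK Ω := Submodule.starProjection_apply_mem _ _
  have h1 := inner_le_conv hΩ hp hfin hwm
  have h2 : ⟪tensL p.1, w⟫_ℝ = ‖w‖ ^ 2 := by
    have h3 := Submodule.starProjection_inner_eq_zero (K := gradK Ω) (tensL p.1) w hwm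
    rw [inner_sub_left, sub_eq_zero] at h3
    rw [h3, ← hw, real_inner_self_eq_norm_sq]
  rw [h2] at h1
  have h4 : ‖w‖ ≤ (convN p.1).toReal := by
    rcases eq_or_ne ‖w‖ 0 with h0 | h0
    · rw [h0]; exact ENNReal.toReal_nonneg
    · have hpos : 0 < ‖w‖ := lt_of_le_of_ne (norm_nonneg _) (Ne.symm h0)
      rw [sq] at h1
      exact le_of_mul_le_mul_right h1 hpos
  rw [← ofReal_norm]
  exact (ENNReal.ofReal_le_ofReal h4).trans (by rw [ENNReal.ofReal_toReal hfin])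

variable {ν T : ℝ} {u : ℝ → L2V Ω} {G : ℝ → L2M Ω} {f : ℝ → L2V Ω}

/-- the projected tensor -/
noncomputable def pm (u : ℝ → L2V Ω) (τ : ℝ) : ℝ≥0∞ := ‖(gradK Ω).starProjection (tensL (u τ))‖ₑ

theorem defect_le_pm (hΩ : IsOpen Ω) (hν : 0 ≤ ν) (hT : 0 < T)
    (h : IsWeakSolution Ω ν T u G f) {s t : ℝ} (hs : 0 ≤ s) (hst : s ≤ t) (ht : t ≤ T) :
    ENNReal.ofReal |energyDefect ν u G f t - energyDefect ν u G f s|
      ≤ Filter.liminf (fun r : ℝ => ENNReal.ofReal r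
        * ∫⁻ τ in {τ | r < ‖G τ‖}, pm u τ ∂(volume.restrict (Ioo s t))) atTop := by
  obtain ⟨M, hM⟩ := h.bdd
  have S := h.toSol hΩ hν hT hM
  rw [energyDefect_eq hΩ hν hT h ⟨hs.trans hst, ht⟩, energyDefect_eq hΩ hν hT h ⟨hs, hst.trans ht⟩]
  exact sol_tail (sol_proj S (gradK Ω) (fun p hp => mem_gradK hp)) hs hst ht

theorem pm_meas (hΩ : IsOpen Ω) (hν : 0 ≤ ν) (hT : 0 < T)
    (h : IsWeakSolution Ω ν T u G f) {s t : ℝ} (hs : 0 ≤ s) (ht : t ≤ T) :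
    AEMeasurable (pm u) (volume.restrict (Ioo s t)) := by
  obtain ⟨M, hM⟩ := h.bdd
  have S := h.toSol hΩ hν hT hM
  have h1 : AEStronglyMeasurable (fun τ => tensL (u τ)) (volume.restrict (Ioo s t)) :=
    (IntegrableOn.mono_set S.mint
      ((Ioo_subset_Ioo hs ht).trans Ioo_subset_Ioc_self)).aestronglyMeasurable
  exact ((gradK Ω).starProjection.continuous.comp_aestronglyMeasurable h1).enorm

theorem g_meas (h : IsWeakSolution Ω ν T u G f) {s t : ℝ} (hs : 0 ≤ s) (ht : t ≤ T) :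
    AEMeasurable (fun τ => ‖G τ‖) (volume.restrict (Ioo s t)) :=
  (h.gradL2.aestronglyMeasurable.mono_measure
    (Measure.restrict_mono (Ioo_subset_Ioo hs ht) le_rfl)).norm.aemeasurable

theorem g_int (h : IsWeakSolution Ω ν T u G f) {s t : ℝ} (hs : 0 ≤ s) (ht : t ≤ T) :
    Integrable (fun τ => ‖G τ‖ ^ 2) (volume.restrict (Ioo s t)) :=
  (h.gradL2.mono_measure (Measure.restrict_mono (Ioo_subset_Ioo hs ht)
    le_rfl)).integrable_norm_pow (by norm_num : (2 : ℕ) ≠ 0)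

theorem zero_of_liminf (hΩ : IsOpen Ω) (hν : 0 ≤ ν) (hT : 0 < T)
    (h : IsWeakSolution Ω ν T u G f) {s t : ℝ} (hs : 0 ≤ s) (hst : s ≤ t) (ht : t ≤ T)
    (h0 : Filter.liminf (fun r : ℝ => ENNReal.ofReal r
        * ∫⁻ τ in {τ | r < ‖G τ‖}, pm u τ ∂(volume.restrict (Ioo s t))) atTop = 0) :
    energyDefect ν u G f t = energyDefect ν u G f s := by
  have h1 := defect_le_pm hΩ hν hT h hs hst ht
  rw [h0, nonpos_iff_eq_zero, ENNReal.ofReal_eq_zero] at h1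
  exact sub_eq_zero.mp (abs_nonpos_iff.mp h1)

theorem ae_graph (h : IsWeakSolution Ω ν T u G f) {s t : ℝ} (hs : 0 ≤ s) (ht : t ≤ T) :
    ∀ᵐ τ ∂(volume.restrict (Ioo s t)), (u τ, G τ) ∈ graphW Ω := by
  filter_upwards [ae_mono (Measure.restrict_mono (Ioo_subset_Ioo hs ht) le_rfl) h.grad] with τ h1
  exact mem_graphW.mpr h1

/-- criteria with a majorant `N` of the negative norm. -/
theorem eq_of_N (hΩ : IsOpen Ω) (hν : 0 ≤ ν) (hT : 0 < T)
    (h : IsWeakSolution Ω ν T u G f) {s t : ℝ} (hs : 0 ≤ s) (hst : s ≤ t) (ht : t ≤ T)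
    {N : ℝ → ℝ≥0∞} {c : ℝ} (hN : ∀ᵐ τ ∂(volume.restrict (Ioo s t)),
      pm u τ ≤ ENNReal.ofReal c * N τ)
    (hlog : ∫⁻ τ in Ioo s t, ENNReal.ofReal (‖G τ‖ / Real.log (Real.exp 1 + ‖G τ‖)) * N τ ≠ ⊤) :
    energyDefect ν u G f t = energyDefect ν u G f s := by
  apply zero_of_liminf hΩ hν hT h hs hst ht
  refine liminf_log (fun τ => norm_nonneg (G τ)) (g_meas h hs ht) (pm_meas hΩ hν hT h hs ht) ?_
  apply ne_of_lt
  calc ∫⁻ τ in Ioo s t, ENNReal.ofReal (‖G τ‖ / Real.log (Real.exp 1 + ‖G τ‖)) * pm u τ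
      ≤ ∫⁻ τ in Ioo s t, ENNReal.ofReal c
          * (ENNReal.ofReal (‖G τ‖ / Real.log (Real.exp 1 + ‖G τ‖)) * N τ) := by
        refine lintegral_mono_ae ?_
        filter_upwards [hN] with τ hτ
        refine (mul_le_mul' le_rfl hτ).trans (le_of_eq ?_)
        ring
    _ = ENNReal.ofReal c * ∫⁻ τ in Ioo s t,
          ENNReal.ofReal (‖G τ‖ / Real.log (Real.exp 1 + ‖G τ‖)) * N τ :=
        lintegral_const_mul' _ _ ENNReal.ofReal_ne_top
    _ < ⊤ := ENNReal.mul_lt_top ENNReal.ofReal_lt_top (lt_top_iff_ne_top.mpr hlog)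

/-- `N` in weak `L²`. -/
theorem eq_of_N_weak (hΩ : IsOpen Ω) (hν : 0 ≤ ν) (hT : 0 < T)
    (h : IsWeakSolution Ω ν T u G f) {s t : ℝ} (hs : 0 ≤ s) (hst : s ≤ t) (ht : t ≤ T)
    {N : ℝ → ℝ≥0∞} {c : ℝ} (hc : 0 ≤ c) (hN : ∀ᵐ τ ∂(volume.restrict (Ioo s t)),
      pm u τ ≤ ENNReal.ofReal c * N τ) {C : ℝ}
    (hC : ∀ l : ℝ, 0 < l →
      volume {τ ∈ Ioo s t | ENNReal.ofReal l < N τ} ≤ ENNReal.ofReal (C / l ^ 2)) :
    energyDefect ν u G f t = energyDefect ν u G f s := by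
  apply zero_of_liminf hΩ hν hT h hs hst ht
  refine liminf_weak (fun τ => norm_nonneg (G τ)) (g_meas h hs ht) (g_int h hs ht)
    (pm_meas hΩ hν hT h hs ht) (C := C * (c + 1) ^ 2) ?_
  intro l hl
  have hc1 : 0 < c + 1 := by linarith
  have h1 : (volume.restrict (Ioo s t)) {x | ENNReal.ofReal l < pm u x}
      ≤ (volume.restrict (Ioo s t)) {x | ENNReal.ofReal (l / (c + 1)) < N x} := by
    refine measure_mono_ae ?_
    filter_upwards [hN] with τ hτ hlt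
    have hlt' : ENNReal.ofReal l < pm u τ := hlt
    show ENNReal.ofReal (l / (c + 1)) < N τ
    by_contra hcon
    push Not at hcon
    have h2 : pm u τ ≤ ENNReal.ofReal l := by
      calc pm u τ ≤ ENNReal.ofReal c * N τ := hτ
        _ ≤ ENNReal.ofReal (c + 1) * ENNReal.ofReal (l / (c + 1)) := by
            refine mul_le_mul' (ENNReal.ofReal_le_ofReal (by linarith)) hcon
        _ = ENNReal.ofReal l := by
            rw [← ENNReal.ofReal_mul hc1.le]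
            congr 1
            field_simp
    exact absurd hlt' (not_lt.mpr h2)
  refine h1.trans ?_
  rw [Measure.restrict_apply' measurableSet_Ioo]
  have e1 : {x | ENNReal.ofReal (l / (c + 1)) < N x} ∩ Ioo s t
      = {τ ∈ Ioo s t | ENNReal.ofReal (l / (c + 1)) < N τ} := by
    ext x; simp only [mem_inter_iff, mem_ofPred_eq]; tauto
  rw [e1]
  refine (hC _ (by positivity)).trans (ENNReal.ofReal_le_ofReal (le_of_eq ?_))
  field_simp

end Q176.AN
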