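import Mathlib
import Pool.Agent.Q176.AN.Neg
import Pool.Agent.Q176.AN.Gram

/-!
`‖(v·∇)v‖_{-1} ≤ 4 ‖(∇v + c (∇v)ᵀ) v‖_{6/5}` for all numbers `c`.
-/

set_option linter.unusedSectionVars false

open MeasureTheory Set Filter Topology
open scoped InnerProductSpace ENNReal ContDiff NNReal

namespace Q176.AN

open H772R2.NS

variable {Ω : Set E3}

theorem div_zero' {χ : E3 → E3} (h : IsTest Ω χ) {g : E3 → ℝ} (hg : ContDiff ℝ ∞ g) :
    ∫ x, ∑ j, χ x j * fderiv ℝ g x (ev j) = 0 := by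
  have hcont : ∀ j, Continuous (fun x => fderiv ℝ g x (ev j)) := fun j =>
    (hg.continuous_fderiv (by simp)).clm_apply continuous_const
  have hcontφ : ∀ j, Continuous (fun x => fderiv ℝ (fun y => χ y j) x (ev j)) := fun j =>
    ((contDiff_coord h.smooth j).continuous_fderiv (by simp)).clm_apply continuous_const
  have hφc : ∀ j, Continuous (fun x => χ x j) := fun j => (contDiff_coord h.smooth j).continuous
  have hs : ∀ j, HasCompactSupport (fun x => χ x j) := fun j => hasCompactSupport_coord h.compact j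
  have hsd : ∀ j, HasCompactSupport (fun x => fderiv ℝ (fun y => χ y j) x (ev j)) := fun j =>
    (hs j).fderiv_apply ℝ _
  have hibp : ∀ j, ∫ x, χ x j * fderiv ℝ g x (ev j)
      = - ∫ x, fderiv ℝ (fun y => χ y j) x (ev j) * g x := by
    intro j
    apply integral_mul_fderiv_eq_neg_fderiv_mul_of_integrable
    · exact ((hcontφ j).mul hg.continuous).integrable_of_hasCompactSupport ((hsd j).mul_right)
    · exact ((hφc j).mul (hcont j)).integrable_of_hasCompactSupport ((hs j).mul_right)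
    · exact ((hφc j).mul hg.continuous).integrable_of_hasCompactSupport ((hs j).mul_right)
    · intro x _
      exact ((contDiff_coord h.smooth j).differentiable (by simp)) x
    · intro x _
      exact (hg.differentiable (by simp)) x
  have hint1 : ∀ j ∈ Finset.univ, Integrable (fun x => χ x j * fderiv ℝ g x (ev j)) := fun j _ =>
    ((hφc j).mul (hcont j)).integrable_of_hasCompactSupport ((hs j).mul_right)
  have hint2 : ∀ j ∈ Finset.univ, Integrable (fun x => fderiv ℝ (fun y => χ y j) x (ev j) * g x) :=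
    fun j _ => ((hcontφ j).mul hg.continuous).integrable_of_hasCompactSupport ((hsd j).mul_right)
  rw [integral_finsetSum _ hint1]
  simp_rw [hibp]
  rw [Finset.sum_neg_distrib, ← integral_finsetSum _ hint2]
  have hz : ∀ x, ∑ j, fderiv ℝ (fun y => χ y j) x (ev j) * g x = 0 := by
    intro x
    rw [← Finset.sum_mul]
    have : ∑ j, fderiv ℝ (fun y => χ y j) x (ev j) = 0 := by
      simp_rw [fderiv_coord h.smooth]
      exact h.divfree x
    rw [this, zero_mul]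
  simp [hz]

/-- the outer product -/
noncomputable def outer : E3 →L[ℝ] E3 →L[ℝ] M3 :=
  LinearMap.toContinuousLinearMap
    { toFun := fun a => LinearMap.toContinuousLinearMap
        { toFun := fun b => WithLp.toLp 2 fun p => a p.1 * b p.2
          map_add' := fun b c => by ext p; simp [mul_add]
          map_smul' := fun c b => by ext p; simp; ring }
      map_add' := fun a b => by
        ext c p
        simp [add_mul]
      map_smul' := fun c a => by
        ext b p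
        simp [mul_assoc] }

theorem outer_apply (a b : E3) (p : Fin 3 × Fin 3) : outer a b p = a p.1 * b p.2 := rfl

/-- `A w + c Aᵀ w` -/
noncomputable def mulc (c : ℝ) (A : M3) (w : E3) : E3 :=
  WithLp.toLp 2 fun i => ∑ j, (A (i, j) + c * A (j, i)) * w j

theorem mulc_apply (c : ℝ) (A : M3) (w : E3) (i : Fin 3) :
    mulc c A w i = ∑ j, (A (i, j) + c * A (j, i)) * w j := rfl

theorem inner_mulc (c : ℝ) (A : M3) (w y : E3) :
    ⟪mulc c A w, y⟫_ℝ = ⟪A, outer y w⟫_ℝ + c * ⟪A, outer w y⟫_ℝ := by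
  rw [inner_E3, inner_M3, inner_M3]
  simp only [mulc_apply, outer_apply, Fin.sum_univ_three]
  ring

/-- test fields as bounded functions. -/
noncomputable def IsTest.top {φ : E3 → E3} (h : IsTest Ω φ) :
    Lp E3 ⊤ ((volume : Measure E3).restrict Ω) :=
  ((h.memLp ⊤).restrict Ω).toLp φ

theorem IsTest.top_coe {φ : E3 → E3} (h : IsTest Ω φ) :
    (IsTest.top h : E3 → E3) =ᵐ[volume.restrict Ω] φ := MemLp.coeFn_toLp _

/-- `v ↦ φ ⊗ v` -/
noncomputable def opL {φ : E3 → E3} (h : IsTest Ω φ) : L2V Ω →L[ℝ] L2M Ω :=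
  outer.holderL (volume.restrict Ω) ⊤ 2 2 (IsTest.top h)

theorem opL_coe {φ : E3 → E3} (h : IsTest Ω φ) (v : L2V Ω) :
    (opL h v : E3 → M3) =ᵐ[volume.restrict Ω] fun x => outer (φ x) (v x) := by
  have h1 := outer.coeFn_holder (r := 2) (IsTest.top h) v
  have h2 : (opL h v : E3 → M3) = (outer.holder 2 (IsTest.top h) v : E3 → M3) := rfl
  rw [h2]
  filter_upwards [h1, IsTest.top_coe h] with x a b
  rw [a, b]

/-- `v ↦ v ⊗ φ` -/
noncomputable def opR {φ : E3 → E3} (h : IsTest Ω φ) : L2V Ω →L[ℝ] L2M Ω :=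
  outer.flip.holderL (volume.restrict Ω) ⊤ 2 2 (IsTest.top h)

theorem opR_coe {φ : E3 → E3} (h : IsTest Ω φ) (v : L2V Ω) :
    (opR h v : E3 → M3) =ᵐ[volume.restrict Ω] fun x => outer (v x) (φ x) := by
  have h1 := outer.flip.coeFn_holder (r := 2) (IsTest.top h) v
  have h2 : (opR h v : E3 → M3) = (outer.flip.holder 2 (IsTest.top h) v : E3 → M3) := rfl
  rw [h2]
  filter_upwards [h1, IsTest.top_coe h] with x a b
  rw [a, b]
  rfl

/-- `∇φ` as a class -/
noncomputable def jacL {φ : E3 → E3} (h : IsTest Ω φ) : L2M Ω :=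
  ((h.jac_memLp 2).restrict Ω).toLp (jac φ)

theorem jacL_coe {φ : E3 → E3} (h : IsTest Ω φ) :
    (jacL h : E3 → M3) =ᵐ[volume.restrict Ω] jac φ := MemLp.coeFn_toLp _

/-- `∫ (v ⊗ v) : ∇φ + ∫ (∇v) v · φ = 0`. -/
theorem id1 (hΩ : MeasurableSet Ω) {φ : E3 → E3} (h : IsTest Ω φ) {p : L2V Ω × L2M Ω}
    (hp : p ∈ graphW Ω) : ⟪tensL p.1, jacL h⟫_ℝ + ⟪p.2, opL h p.1⟫_ℝ = 0 := by
  refine graphW_induction (fun p => ⟪tensL p.1, jacL h⟫_ℝ + ⟪p.2, opL h p.1⟫_ℝ)
    (((tensL_continuousOn hΩ).inner continuousOn_const).add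
      (continuous_snd.continuousOn.inner
        ((opL h).continuous.comp continuous_fst).continuousOn)) ?_ hp
  intro q hq
  have hqW : q ∈ graphW Ω := Submodule.le_topologicalClosure _ hq
  obtain ⟨ψ, h1, h2, h3⟩ := hq
  let g : E3 → ℝ := fun x => ∑ i, ψ x i * φ x i
  have hg : ContDiff ℝ ∞ g := ContDiff.sum (fun i _ =>
    (contDiff_coord h1.smooth i).mul (contDiff_coord h.smooth i))
  have hgd : ∀ x j, fderiv ℝ g x (ev j)
      = ∑ i, (ψ x i * jac φ x (i, j) + jac ψ x (i, j) * φ x i) := by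
    intro x j
    have d1 : ∀ i, DifferentiableAt ℝ (fun x => ψ x i) x := fun i =>
      ((contDiff_coord h1.smooth i).differentiable (by simp)) x
    have d2 : ∀ i, DifferentiableAt ℝ (fun x => φ x i) x := fun i =>
      ((contDiff_coord h.smooth i).differentiable (by simp)) x
    have h4 : fderiv ℝ g x = ∑ i, fderiv ℝ (fun x => ψ x i * φ x i) x := by
      have : g = fun x => ∑ i, ψ x i * φ x i := rfl
      rw [this, fderiv_fun_sum (fun i _ => (d1 i).fun_mul (d2 i))]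
    rw [h4, sum_apply]
    refine Finset.sum_congr rfl (fun i _ => ?_)
    rw [fderiv_fun_mul (d1 i) (d2 i)]
    simp only [add_apply, smul_apply, smul_eq_mul]
    rw [fderiv_coord h.smooth, fderiv_coord h1.smooth, jac_apply, jac_apply]
    ring
  have e1 : ⟪tensL q.1, jacL h⟫_ℝ + ⟪q.2, opL h q.1⟫_ℝ
      = ∫ x in Ω, ∑ j, ψ x j * fderiv ℝ g x (ev j) := by
    rw [L2.inner_def, L2.inner_def, ← integral_add (L2.integrable_inner _ _)
      (L2.integrable_inner _ _)]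
    apply integral_congr_ae
    filter_upwards [tensL_coe hΩ hqW, h2, h3, jacL_coe h, opL_coe h q.1] with x a b c d e
    rw [a, b, c, d, e, b, inner_M3, inner_M3]
    simp only [hgd, tens_apply, outer_apply, Fin.sum_univ_three]
    ring
  show ⟪tensL q.1, jacL h⟫_ℝ + ⟪q.2, opL h q.1⟫_ℝ = 0
  rw [e1, setIntegral_eq_integral_of_forall_compl_eq_zero]
  · exact div_zero' h1 hg
  · intro x hx
    have : ψ x = 0 := by
      apply image_eq_zero_of_notMem_tsupport
      intro hc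
      exact hx (h1.supp hc)
    simp [this]

/-- `∫ (∇v)ᵀ v · φ = 0`. -/
theorem id2 (hΩ : MeasurableSet Ω) {φ : E3 → E3} (h : IsTest Ω φ) {p : L2V Ω × L2M Ω}
    (hp : p ∈ graphW Ω) : ⟪p.2, opR h p.1⟫_ℝ = 0 := by
  refine graphW_induction (fun p => ⟪p.2, opR h p.1⟫_ℝ)
    (continuous_snd.continuousOn.inner
        ((opR h).continuous.comp continuous_fst).continuousOn) ?_ hp
  intro q hq
  obtain ⟨ψ, h1, h2, h3⟩ := hq
  let g : E3 → ℝ := fun x => ∑ i, ψ x i * ψ x i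
  have hg : ContDiff ℝ ∞ g := ContDiff.sum (fun i _ =>
    (contDiff_coord h1.smooth i).mul (contDiff_coord h1.smooth i))
  have hgd : ∀ x j, fderiv ℝ g x (ev j)
      = ∑ i, (ψ x i * jac ψ x (i, j) + jac ψ x (i, j) * ψ x i) := by
    intro x j
    have d1 : ∀ i, DifferentiableAt ℝ (fun x => ψ x i) x := fun i =>
      ((contDiff_coord h1.smooth i).differentiable (by simp)) x
    have h4 : fderiv ℝ g x = ∑ i, fderiv ℝ (fun x => ψ x i * ψ x i) x := by
      have : g = fun x => ∑ i, ψ x i * ψ x i := rfl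
      rw [this, fderiv_fun_sum (fun i _ => (d1 i).fun_mul (d1 i))]
    rw [h4, sum_apply]
    refine Finset.sum_congr rfl (fun i _ => ?_)
    rw [fderiv_fun_mul (d1 i) (d1 i)]
    simp only [add_apply, smul_apply, smul_eq_mul]
    rw [fderiv_coord h1.smooth, jac_apply]
    ring
  have e1 : ⟪q.2, opR h q.1⟫_ℝ = ∫ x in Ω, (1 / 2) * ∑ j, φ x j * fderiv ℝ g x (ev j) := by
    rw [L2.inner_def]
    apply integral_congr_ae
    filter_upwards [h2, h3, opR_coe h q.1] with x b c e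
    rw [c, e, b, inner_M3]
    simp only [hgd, outer_apply, Fin.sum_univ_three]
    ring
  show ⟪q.2, opR h q.1⟫_ℝ = 0
  rw [e1, integral_const_mul, setIntegral_eq_integral_of_forall_compl_eq_zero]
  · rw [div_zero' h hg, mul_zero]
  · intro x hx
    have : φ x = 0 := by
      apply image_eq_zero_of_notMem_tsupport
      intro hc
      exact hx (h.supp hc)
    simp [this]

/-- the negative norm of `(v·∇)v` as an integral of `(∇v + c (∇v)ᵀ) v`. -/
theorem pair_lamb (hΩ : MeasurableSet Ω) (c : ℝ) {φ : E3 → E3} (h : IsTest Ω φ)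
    {p : L2V Ω × L2M Ω} (hp : p ∈ graphW Ω) :
    pair p.1 φ = - ∫ x in Ω, ⟪mulc c (p.2 x) (p.1 x), φ x⟫_ℝ := by
  have h1 := id1 hΩ h hp
  have h2 := id2 hΩ h hp
  have h3 : ∫ x in Ω, ⟪mulc c (p.2 x) (p.1 x), φ x⟫_ℝ
      = ⟪p.2, opL h p.1⟫_ℝ + c * ⟪p.2, opR h p.1⟫_ℝ := by
    rw [L2.inner_def, L2.inner_def, ← integral_const_mul,
      ← integral_add (L2.integrable_inner _ _) ((L2.integrable_inner _ _).const_mul c)]
    apply integral_congr_ae
    filter_upwards [opL_coe h p.1, opR_coe h p.1] with x a b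
    rw [a, b, inner_mulc]
  rw [pair_eq hΩ hp (jacL_coe h), h3, h2]
  linarith

/-- the norm of `(∇v + c (∇v)ᵀ) v` in `L^{6/5}`. -/
noncomputable def lamb (c : ℝ) (z : L2M Ω) (v : L2V Ω) : ℝ≥0∞ :=
  eLpNorm (fun x => mulc c (z x) (v x)) (6 / 5) (volume.restrict Ω)

theorem six_le {φ : E3 → E3} (h : IsTest Ω φ) (hΩ : MeasurableSet Ω)
    (h1 : ∫ x in Ω, ‖jac φ x‖ ^ 2 ≤ 1) :
    (∫⁻ x, ‖φ x‖ₑ ^ (6 : ℝ)) ^ (1 / (6 : ℝ)) ≤ 4 := by
  have ha := aniso (h.smooth.of_le (by simp)) h.compact (EuclideanSpace.basisFun (Fin 3) ℝ)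
  have hj : ∫⁻ x, ‖jac φ x‖ₑ ^ 2 ≤ 1 := by
    have e1 : ∫⁻ x, ‖jac φ x‖ₑ ^ 2 = ∫⁻ x in Ω, ‖jac φ x‖ₑ ^ 2 := by
      rw [← lintegral_indicator hΩ]
      refine lintegral_congr fun x => ?_
      by_cases hx : x ∈ Ω
      · rw [indicator_of_mem hx]
      · rw [indicator_of_notMem hx]
        have : jac φ x = 0 := by
          apply image_eq_zero_of_notMem_tsupport
          intro hc
          exact hx (h.supp (tsupport_jac_subset hc))
        simp [this]
    rw [e1]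
    have hi : Integrable (fun x => ‖jac φ x‖ ^ 2) (volume.restrict Ω) :=
      ((h.jac_memLp 2).restrict Ω).integrable_norm_pow (by norm_num : (2 : ℕ) ≠ 0)
    have e2 := ofReal_integral_eq_lintegral_ofReal hi (Eventually.of_forall fun x => by positivity)
    have e3 : ∫⁻ x in Ω, ENNReal.ofReal (‖jac φ x‖ ^ 2) = ∫⁻ x in Ω, ‖jac φ x‖ₑ ^ 2 := by
      refine lintegral_congr fun x => ?_
      rw [ENNReal.ofReal_pow (norm_nonneg _), ofReal_norm]
    rw [← e3, ← e2]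
    exact (ENNReal.ofReal_le_ofReal h1).trans (by simp)
  have hD : ∀ i, (∫⁻ p, ‖fderiv ℝ φ p (EuclideanSpace.basisFun (Fin 3) ℝ i)‖ₑ ^ 2) ^ (1 / 2 : ℝ)
      ≤ 1 := by
    intro i
    have h2 : ∫⁻ p, ‖fderiv ℝ φ p (EuclideanSpace.basisFun (Fin 3) ℝ i)‖ₑ ^ 2 ≤ 1 := by
      refine (lintegral_mono fun p => ?_).trans hj
      simp only
      have h3 : ‖fderiv ℝ φ p (EuclideanSpace.basisFun (Fin 3) ℝ i)‖ ≤ ‖jac φ p‖ := by
        refine ((fderiv ℝ φ p).le_opNorm _).trans ?_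
        rw [(EuclideanSpace.basisFun (Fin 3) ℝ).orthonormal.1 i, mul_one]
        exact norm_fderiv_le_jac p
      have h4 := ENNReal.ofReal_le_ofReal h3
      rw [ofReal_norm, ofReal_norm] at h4
      gcongr
    calc (∫⁻ p, ‖fderiv ℝ φ p (EuclideanSpace.basisFun (Fin 3) ℝ i)‖ₑ ^ 2) ^ (1 / 2 : ℝ)
        ≤ (1 : ℝ≥0∞) ^ (1 / 2 : ℝ) := by gcongr
      _ = 1 := by simp
  have hX : (∫⁻ p, ‖φ p‖ₑ ^ 6) ^ (1 / 2 : ℝ) ≤ 64 := by
    refine ha.trans ?_
    calc 64 * ∏ i, (∫⁻ p, ‖fderiv ℝ φ p (EuclideanSpace.basisFun (Fin 3) ℝ i)‖ₑ ^ 2) ^ (1 / 2 : ℝ)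
        ≤ 64 * ∏ _i : Fin 3, (1 : ℝ≥0∞) := by
          gcongr
          exact hD _
      _ = 64 := by simp
  have e4 : (∫⁻ x, ‖φ x‖ₑ ^ (6 : ℝ)) = ∫⁻ x, ‖φ x‖ₑ ^ 6 := by
    refine lintegral_congr fun x => ?_
    rw [← ENNReal.rpow_natCast]
    norm_num
  rw [e4]
  calc (∫⁻ x, ‖φ x‖ₑ ^ 6) ^ (1 / (6 : ℝ)) = ((∫⁻ p, ‖φ p‖ₑ ^ 6) ^ (1 / 2 : ℝ)) ^ (1 / 3 : ℝ) := by
        rw [← ENNReal.rpow_mul]; norm_num
    _ ≤ (64 : ℝ≥0∞) ^ (1 / 3 : ℝ) := by gcongr
    _ = 4 := by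
        have : (64 : ℝ≥0∞) = (4 : ℝ≥0∞) ^ (3 : ℝ) := by
          have h5 : (4 : ℝ≥0∞) ^ (3 : ℝ) = (4 : ℝ≥0∞) ^ (3 : ℕ) := by
            rw [← ENNReal.rpow_natCast]; norm_num
          rw [h5]; norm_num
        rw [this, ← ENNReal.rpow_mul]; norm_num

theorem conv_le_lamb (hΩ : MeasurableSet Ω) (c : ℝ) {p : L2V Ω × L2M Ω} (hp : p ∈ graphW Ω) :
    convN p.1 ≤ 4 * lamb c p.2 p.1 := by
  unfold convN
  refine iSup_le fun φ => iSup_le fun h => iSup_le fun h1 => ?_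
  have hm : AEStronglyMeasurable (fun x => mulc c (p.2 x) (p.1 x)) (volume.restrict Ω) := by
    have hc : Continuous (fun q : M3 × E3 => mulc c q.1 q.2) := by
      unfold mulc
      refine (PiLp.continuous_toLp 2 _).comp (continuous_pi fun i => ?_)
      fun_prop
    exact hc.comp_aestronglyMeasurable
      ((Lp.aestronglyMeasurable p.2).prodMk (Lp.aestronglyMeasurable p.1))
  have hφm : AEMeasurable (fun x => ‖φ x‖ₑ) (volume.restrict Ω) :=
    h.smooth.continuous.measurable.enorm.aemeasurable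
  rw [pair_lamb hΩ c h hp]
  calc ENNReal.ofReal (-∫ x in Ω, ⟪mulc c (p.2 x) (p.1 x), φ x⟫_ℝ)
      ≤ ENNReal.ofReal ‖∫ x in Ω, ⟪mulc c (p.2 x) (p.1 x), φ x⟫_ℝ‖ :=
        ENNReal.ofReal_le_ofReal (by rw [Real.norm_eq_abs]; exact neg_le_abs _)
    _ = ‖∫ x in Ω, ⟪mulc c (p.2 x) (p.1 x), φ x⟫_ℝ‖ₑ := ofReal_norm _
    _ ≤ ∫⁻ x in Ω, ‖⟪mulc c (p.2 x) (p.1 x), φ x⟫_ℝ‖ₑ := enorm_integral_le_lintegral_enorm _
    _ ≤ ∫⁻ x in Ω, ‖mulc c (p.2 x) (p.1 x)‖ₑ * ‖φ x‖ₑ := by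
        refine lintegral_mono fun x => ?_
        simp only
        have h2 := norm_inner_le_norm (𝕜 := ℝ) (mulc c (p.2 x) (p.1 x)) (φ x)
        have h3 := ENNReal.ofReal_le_ofReal h2
        rwa [ENNReal.ofReal_mul (norm_nonneg _), ofReal_norm, ofReal_norm, ofReal_norm] at h3
    _ ≤ (∫⁻ x in Ω, ‖mulc c (p.2 x) (p.1 x)‖ₑ ^ (6 / 5 : ℝ)) ^ (1 / (6 / 5 : ℝ))
        * (∫⁻ x in Ω, ‖φ x‖ₑ ^ (6 : ℝ)) ^ (1 / (6 : ℝ)) := by
        have := ENNReal.lintegral_mul_le_Lp_mul_Lq (volume.restrict Ω)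
          (p := 6 / 5) (q := 6) (by rw [Real.holderConjugate_iff]; norm_num) hm.enorm hφm
        exact this
    _ ≤ (∫⁻ x in Ω, ‖mulc c (p.2 x) (p.1 x)‖ₑ ^ (6 / 5 : ℝ)) ^ (1 / (6 / 5 : ℝ)) * 4 := by
        gcongr
        refine le_trans ?_ (six_le h hΩ h1)
        gcongr
        exact Measure.restrict_le_self
    _ = 4 * lamb c p.2 p.1 := by
        rw [mul_comm]
        congr 1
        unfold lamb
        rw [eLpNorm_eq_lintegral_rpow_enorm_toReal (by norm_num) (by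
          exact ENNReal.div_ne_top (by norm_num) (by norm_num))]
        norm_num

end Q176.AN
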