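import Mathlib
import Pool.Agent.H772R2.NS.Cor3
import Pool.Agent.Q176.AN.Gram

/-!
No energy is lost on `(s,t)` if `∫ ‖∇u‖ ‖u‖₄² / log(e + ‖∇u‖) < ∞` on `(s,t)`.
-/

set_option linter.unusedSectionVars false

open MeasureTheory Set Filter Topology
open scoped InnerProductSpace ENNReal ContDiff NNReal

namespace Q176.AN

open H772R2.NS

variable {Ω : Set E3} {ν T : ℝ} {u : ℝ → L2V Ω} {G : ℝ → L2M Ω} {f : ℝ → L2V Ω}

theorem eq_of_liminf (hΩ : IsOpen Ω) (hν : 0 ≤ ν) (hT : 0 < T)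
    (h : IsWeakSolution Ω ν T u G f) {s t : ℝ} (hs : 0 ≤ s) (hst : s ≤ t) (ht : t ≤ T)
    (h0 : Filter.liminf (tail Ω u G s t) atTop = 0) :
    energyDefect ν u G f t = energyDefect ν u G f s := by
  have h1 := h.defect_le_tail hΩ hν hT hs hst ht
  rw [h0, nonpos_iff_eq_zero, ENNReal.ofReal_eq_zero] at h1
  exact sub_eq_zero.mp (abs_nonpos_iff.mp h1)

theorem aemeas_four (hΩ : IsOpen Ω) (hν : 0 ≤ ν) (hT : 0 < T)
    (h : IsWeakSolution Ω ν T u G f) {s t : ℝ} (hs : 0 ≤ s) (ht : t ≤ T) :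
    AEMeasurable (fun τ => (eLpNorm (u τ) 4 (volume.restrict Ω)) ^ 2)
      (volume.restrict (Ioo s t)) := by
  obtain ⟨M, hM⟩ := h.bdd
  have S := h.toSol hΩ hν hT hM
  have h1 : AEStronglyMeasurable (fun τ => tensL (u τ)) (volume.restrict (Ioo s t)) :=
    (IntegrableOn.mono_set S.mint
      ((Ioo_subset_Ioo hs ht).trans Ioo_subset_Ioc_self)).aestronglyMeasurable
  refine h1.enorm.congr ?_
  filter_upwards [ae_mono (Measure.restrict_mono (Ioo_subset_Ioo hs ht) le_rfl) h.grad] with τ hτ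
  exact enorm_tensL hΩ.measurableSet (p := (u τ, G τ)) (mem_graphW.mpr hτ)

theorem log_cmp {x : ℝ} (hx : 0 ≤ x) :
    Real.log (Real.exp 1 + x) ≤ 2 * Real.log (Real.exp 1 + x ^ 2) := by
  have he : 2 ≤ Real.exp 1 := by
    have := Real.add_one_le_exp (1 : ℝ)
    linarith
  rw [show (2 : ℝ) * Real.log (Real.exp 1 + x ^ 2) = Real.log ((Real.exp 1 + x ^ 2) ^ 2) by
    rw [Real.log_pow]; norm_num]
  apply Real.log_le_log (by positivity)
  nlinarith [sq_nonneg (x - 1), mul_nonneg (sub_nonneg.mpr he) (sq_nonneg x),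
    mul_self_nonneg (Real.exp 1 - 2), sq_nonneg (x ^ 2)]

theorem eq_of_four_log (hΩ : IsOpen Ω) (hν : 0 ≤ ν) (hT : 0 < T)
    (h : IsWeakSolution Ω ν T u G f) {s t : ℝ} (hs : 0 ≤ s) (hst : s ≤ t) (ht : t ≤ T)
    (hlog : ∫⁻ τ in Ioo s t, ENNReal.ofReal (‖G τ‖ / Real.log (Real.exp 1 + ‖G τ‖))
      * (eLpNorm (u τ) 4 (volume.restrict Ω)) ^ 2 ≠ ⊤) :
    energyDefect ν u G f t = energyDefect ν u G f s := by
  apply eq_of_liminf hΩ hν hT h hs hst ht
  by_contra hne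
  set a : ℝ → ℝ≥0∞ := tail Ω u G s t with ha
  set N : ℝ → ℝ≥0∞ := fun τ => (eLpNorm (u τ) 4 (volume.restrict Ω)) ^ 2 with hN
  have hNm : AEMeasurable N (volume.restrict (Ioo s t)) := aemeas_four hΩ hν hT h hs ht
  have hpos : 0 < Filter.liminf a atTop := pos_iff_ne_zero.mpr hne
  obtain ⟨c, hc0, hc⟩ := exists_between hpos
  have hev : ∀ᶠ r in atTop, c < a r := eventually_lt_of_lt_liminf hc
  obtain ⟨r0, hr0⟩ := eventually_atTop.mp hev
  obtain ⟨n0, hn0⟩ := pow_unbounded_of_one_lt r0 (show (1 : ℝ) < 2 by norm_num)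
  have hGm : AEStronglyMeasurable G (volume.restrict (Ioo s t)) :=
    h.gradL2.aestronglyMeasurable.mono_measure (Measure.restrict_mono (Ioo_subset_Ioo hs ht) le_rfl)
  have hset : ∀ r : ℝ, NullMeasurableSet {τ | r < ‖G τ‖} (volume.restrict (Ioo s t)) := fun r =>
    nullMeasurableSet_lt aemeasurable_const hGm.norm.aemeasurable
  -- the weighted sum
  have e1 : ∀ n : ℕ, ENNReal.ofReal (1 / ((n : ℝ) + 1)) * a ((2 : ℝ) ^ (n + 1))
      = ∫⁻ τ in Ioo s t, N τ * (if (4 : ℝ) ^ (n + 1) < ‖G τ‖ ^ 2 then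
        ENNReal.ofReal ((2 : ℝ) ^ (n + 1) / (n + 1)) else 0) := by
    intro n
    have hiff : ∀ τ, (4 : ℝ) ^ (n + 1) < ‖G τ‖ ^ 2 ↔ (2 : ℝ) ^ (n + 1) < ‖G τ‖ := by
      intro τ
      rw [show (4 : ℝ) = 2 ^ 2 by norm_num, ← pow_mul, mul_comm, pow_mul]
      exact pow_lt_pow_iff_left₀ (by positivity) (norm_nonneg _) (by norm_num)
    have s2 : ∀ τ, N τ * (if (4 : ℝ) ^ (n + 1) < ‖G τ‖ ^ 2 then
        ENNReal.ofReal ((2 : ℝ) ^ (n + 1) / (n + 1)) else 0)
        = ENNReal.ofReal ((2 : ℝ) ^ (n + 1) / (n + 1))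
          * {τ | (2 : ℝ) ^ (n + 1) < ‖G τ‖}.indicator N τ := by
      intro τ
      by_cases hτ : (2 : ℝ) ^ (n + 1) < ‖G τ‖
      · rw [if_pos ((hiff τ).mpr hτ), indicator_of_mem (by exact hτ), mul_comm]
      · rw [if_neg (fun hc => hτ ((hiff τ).mp hc)), indicator_of_notMem (by exact hτ), mul_zero,
          mul_zero]
    simp_rw [s2]
    rw [lintegral_const_mul' _ _ ENNReal.ofReal_ne_top, lintegral_indicator₀ (hset _),
      Measure.restrict_restrict₀ (hset _), inter_comm]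
    simp only [ha, tail, hN]
    rw [← mul_assoc, ← ENNReal.ofReal_mul (by positivity)]
    congr 2
    ring
  have hmeas : ∀ n : ℕ, AEMeasurable (fun τ => N τ * (if (4 : ℝ) ^ (n + 1) < ‖G τ‖ ^ 2 then
        ENNReal.ofReal ((2 : ℝ) ^ (n + 1) / (n + 1)) else 0)) (volume.restrict (Ioo s t)) := by
    intro n
    refine hNm.mul ?_
    have hs2 : NullMeasurableSet {τ | (4 : ℝ) ^ (n + 1) < ‖G τ‖ ^ 2}
        (volume.restrict (Ioo s t)) :=
      nullMeasurableSet_lt aemeasurable_const (hGm.norm.aemeasurable.pow_const 2)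
    have := (aemeasurable_const (b := ENNReal.ofReal ((2 : ℝ) ^ (n + 1) / (n + 1)))
      (μ := (volume.restrict (Ioo s t)))).indicator₀ hs2
    refine this.congr (Eventually.of_forall (fun x => ?_))
    simp only [indicator, mem_ofPred_eq]
  have hup : ∑' n : ℕ, ENNReal.ofReal (1 / ((n : ℝ) + 1)) * a ((2 : ℝ) ^ (n + 1)) < ⊤ := by
    simp_rw [e1]
    rw [← lintegral_tsum hmeas]
    have hle : ∫⁻ τ in Ioo s t, ∑' n : ℕ, N τ * (if (4 : ℝ) ^ (n + 1) < ‖G τ‖ ^ 2 then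
        ENNReal.ofReal ((2 : ℝ) ^ (n + 1) / (n + 1)) else 0)
        ≤ ∫⁻ τ in Ioo s t, ENNReal.ofReal 28 * (ENNReal.ofReal
          (‖G τ‖ / Real.log (Real.exp 1 + ‖G τ‖)) * N τ) := by
      refine lintegral_mono (fun τ => ?_)
      simp only
      rw [ENNReal.tsum_mul_left]
      have hw := weights_le (‖G τ‖ ^ 2) (by positivity)
      rw [Real.sqrt_sq (norm_nonneg _)] at hw
      have hx : 0 ≤ ‖G τ‖ := norm_nonneg _
      have hl1 : 0 < Real.log (Real.exp 1 + ‖G τ‖) := by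
        apply Real.log_pos
        have := Real.add_one_le_exp (1 : ℝ)
        linarith
      have hl2 : 0 < Real.log (Real.exp 1 + ‖G τ‖ ^ 2) := by
        apply Real.log_pos
        have := Real.add_one_le_exp (1 : ℝ)
        nlinarith [sq_nonneg ‖G τ‖]
      have hcmp : 14 * (‖G τ‖ / Real.log (Real.exp 1 + ‖G τ‖ ^ 2))
          ≤ 28 * (‖G τ‖ / Real.log (Real.exp 1 + ‖G τ‖)) := by
        rw [mul_div_assoc', mul_div_assoc', div_le_div_iff₀ hl2 hl1]
        have := log_cmp hx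
        nlinarith
      calc N τ * ∑' n : ℕ, (if (4 : ℝ) ^ (n + 1) < ‖G τ‖ ^ 2 then
            ENNReal.ofReal ((2 : ℝ) ^ (n + 1) / (n + 1)) else 0)
          ≤ N τ * ENNReal.ofReal (28 * (‖G τ‖ / Real.log (Real.exp 1 + ‖G τ‖))) := by
            refine mul_le_mul' le_rfl (hw.trans (ENNReal.ofReal_le_ofReal hcmp))
        _ = _ := by
            rw [ENNReal.ofReal_mul (by norm_num)]
            ring
    refine hle.trans_lt ?_
    rw [lintegral_const_mul' _ _ ENNReal.ofReal_ne_top]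
    exact ENNReal.mul_lt_top ENNReal.ofReal_lt_top (lt_top_iff_ne_top.mpr hlog)
  -- divergence
  have hdiv : ∑' n : ℕ, ENNReal.ofReal (1 / ((n : ℝ) + 1)) * a ((2 : ℝ) ^ (n + 1)) = ⊤ := by
    have hns : ¬ Summable (fun n : ℕ => 1 / (((n + n0 : ℕ) : ℝ) + 1)) := by
      intro hcon
      have h1 := (summable_nat_add_iff (f := fun n : ℕ => 1 / ((n : ℝ) + 1)) n0).mp hcon
      have h2 : Summable (fun n : ℕ => 1 / (((n + 1 : ℕ)) : ℝ)) := by
        refine h1.congr (fun n => ?_)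
        push_cast; rfl
      have h3 := (summable_nat_add_iff (f := fun n : ℕ => 1 / (n : ℝ)) 1).mp h2
      exact Real.not_summable_one_div_natCast h3
    have htop : ∑' n : ℕ, ENNReal.ofReal (1 / (((n + n0 : ℕ) : ℝ) + 1)) = ⊤ := by
      by_contra hcon
      apply hns
      have := ENNReal.summable_toReal hcon
      refine this.congr (fun n => ?_)
      rw [ENNReal.toReal_ofReal (by positivity)]
    have hlow : ∑' n : ℕ, ENNReal.ofReal (1 / (((n + n0 : ℕ) : ℝ) + 1)) * c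
        ≤ ∑' n : ℕ, ENNReal.ofReal (1 / ((n : ℝ) + 1)) * a ((2 : ℝ) ^ (n + 1)) := by
      have h1 : ∑' n : ℕ, ENNReal.ofReal (1 / (((n + n0 : ℕ) : ℝ) + 1)) * c
          ≤ ∑' n : ℕ, ENNReal.ofReal (1 / (((n + n0 : ℕ) : ℝ) + 1))
            * a ((2 : ℝ) ^ ((n + n0) + 1)) := by
        refine ENNReal.tsum_le_tsum (fun n => ?_)
        gcongr
        apply (hr0 _ _).le
        refine hn0.le.trans (pow_le_pow_right₀ (by norm_num) (by omega))
      refine h1.trans ?_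
      exact ENNReal.tsum_comp_le_tsum_of_injective (add_left_injective n0)
        (fun n : ℕ => ENNReal.ofReal (1 / ((n : ℝ) + 1)) * a ((2 : ℝ) ^ (n + 1)))
    rw [ENNReal.tsum_mul_right, htop, ENNReal.top_mul hc0.ne'] at hlow
    exact top_le_iff.mp hlow
  rw [hdiv] at hup
  exact lt_irrefl _ hup

end Q176.AN
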