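import Mathlib
import Pool.Agent.H772R2.NS.Pub

/-!
Public definitions: the `L²` norm of a directional derivative, the enstrophy matrix.
-/

open MeasureTheory
open scoped InnerProductSpace ENNReal

namespace Q176.AN

open H772R2.NS.Pub

/-- The product `A w` of a `3 × 3` matrix and a vector: if `A` is the Jacobian matrix of `v` at
`x`, then `A w` is the directional derivative `∂_w v (x)`. -/
noncomputable def mulV (A : Mat) (w : R3) : R3 :=
  WithLp.toLp 2 fun i : Fin 3 => ∑ j : Fin 3,
    (show EuclideanSpace ℝ (Fin 3 × Fin 3) from A) (i, j) * (show EuclideanSpace ℝ (Fin 3) from w) j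

/-- The norm in `L²(Ω)` of the directional derivative `∂_w v` of a field `v` with gradient `z`. -/
noncomputable def dirNorm {Ω : Set R3} (z : L2 Ω Mat) (w : R3) : ℝ :=
  Real.sqrt (∫ x in Ω, ‖mulV (z.fn x) w‖ ^ 2)

/-- The enstrophy matrix `M` of a field `v` with gradient `z`: its entries are
`M_jk = ∫_Ω ∂_j v · ∂_k v dx`. It is symmetric and positive semidefinite, its trace is
`∫_Ω |∇v|²` and `⟨M w, w⟩ = ‖∂_w v‖²`, so its smallest eigenvalue is the minimum of `‖∂_w v‖²`
over the unit vectors `w`. -/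
noncomputable def enstrophyMatrix {Ω : Set R3} (z : L2 Ω Mat) : Matrix (Fin 3) (Fin 3) ℝ :=
  fun j k => ∫ x in Ω, ⟪mulV (z.fn x) (e j), mulV (z.fn x) (e k)⟫_ℝ

end Q176.AN
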