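import Mathlib
import Pool.Agent.H772R2.NS.PubBridge
import Pool.Agent.Q176.AN.Pub
import Pool.Agent.Q176.AN.Log

/-!
The criteria.
-/

set_option linter.unusedSectionVars false

open MeasureTheory Set Filter Topology
open scoped InnerProductSpace ENNReal ContDiff NNReal

namespace Q176.AN

open H772R2.NS

section bridge

variable {Ω : Set E3}

theorem mulV_eq (A : M3) (w : E3) : (mulV A w : E3) = appL w A := rfl

theorem e_eq (j : Fin 3) : (Pub.e j : E3) = ev j := rfl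

theorem dirNorm_eq (z : L2M Ω) (w : E3) :
    dirNorm (Ω := Ω) z w = ‖dder w z‖ := by
  have h1 : ‖dder w z‖ ^ 2 = ∫ x in Ω, ‖appL w (z x)‖ ^ 2 := by
    rw [← real_inner_self_eq_norm_sq, L2.inner_def]
    apply integral_congr_ae
    filter_upwards [dder_coe w z] with x hx
    rw [hx, real_inner_self_eq_norm_sq]
  have h2 : dirNorm (Ω := Ω) z w = Real.sqrt (∫ x in Ω, ‖appL w (z x)‖ ^ 2) := rfl
  rw [h2, ← h1, Real.sqrt_sq (norm_nonneg _)]

theorem enstrophyMatrix_eq (z : L2M Ω) : enstrophyMatrix (Ω := Ω) z = gramM z := by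
  ext j k
  have h2 : enstrophyMatrix (Ω := Ω) z j k
      = ∫ x in Ω, ⟪appL (ev j) (z x), appL (ev k) (z x)⟫_ℝ := rfl
  rw [h2]
  unfold gramM
  rw [L2.inner_def]
  apply integral_congr_ae
  filter_upwards [dder_coe (ev j) z, dder_coe (ev k) z] with x h1 h2
  rw [h1, h2]

end bridge

variable {Ω : Set E3} {ν T : ℝ} {u : ℝ → L2V Ω} {G : ℝ → L2M Ω} {f : ℝ → L2V Ω}

theorem sq_of_four {x : ℝ≥0∞} {c : ℝ} (hc : 0 ≤ c) (h : x ^ 4 ≤ ENNReal.ofReal (c ^ 2)) :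
    x ^ 2 ≤ ENNReal.ofReal c := by
  rw [ENNReal.ofReal_pow hc] at h
  have h2 : (x ^ 2) ^ 2 ≤ (ENNReal.ofReal c) ^ 2 := by rwa [← pow_mul]
  exact (ENNReal.pow_le_pow_left_iff (by norm_num)).mp h2

theorem four_sq_det (hΩ : MeasurableSet Ω) {p : L2V Ω × L2M Ω} (hp : p ∈ graphW Ω) :
    (eLpNorm p.1 4 (volume.restrict Ω)) ^ 2
      ≤ ENNReal.ofReal (8 * (‖p.1‖ ^ 2 * (gramM p.2).det) ^ (1 / 4 : ℝ)) := by
  have hd := gramM_det_nonneg p.2
  apply sq_of_four (by positivity)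
  refine (four_le_det hΩ hp).trans (ENNReal.ofReal_le_ofReal (le_of_eq ?_))
  rw [mul_pow, ← Real.rpow_natCast (_ ^ (1 / 4 : ℝ)), ← Real.rpow_mul (by positivity)]
  norm_num
  rw [← Real.sqrt_eq_rpow, Real.sqrt_mul (by positivity), Real.sqrt_sq (norm_nonneg _)]

theorem four_sq_dir (hΩ : MeasurableSet Ω) {p : L2V Ω × L2M Ω} (hp : p ∈ graphW Ω) {w : E3}
    (hw : ‖w‖ = 1) :
    (eLpNorm p.1 4 (volume.restrict Ω)) ^ 2
      ≤ ENNReal.ofReal (8 * (Real.sqrt ‖p.1‖ * (Real.sqrt ‖dder w p.2‖ * ‖p.2‖))) := by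
  apply sq_of_four (by positivity)
  refine (four_le_dir hΩ hp hw).trans (ENNReal.ofReal_le_ofReal (le_of_eq ?_))
  rw [mul_pow, mul_pow, mul_pow, Real.sq_sqrt (norm_nonneg _), Real.sq_sqrt (norm_nonneg _)]
  norm_num

/-- (A) -/
theorem defect_le_det (hΩ : IsOpen Ω) (hν : 0 ≤ ν) (hT : 0 < T)
    (h : IsWeakSolution Ω ν T u G f) {s t : ℝ} (hs : 0 ≤ s) (hst : s ≤ t) (ht : t ≤ T) :
    ENNReal.ofReal |energyDefect ν u G f t - energyDefect ν u G f s|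
      ≤ Filter.liminf (fun r : ℝ => ENNReal.ofReal r * ∫⁻ τ in Ioo s t ∩ {τ | r < ‖G τ‖},
        ENNReal.ofReal (8 * (‖u τ‖ ^ 2 * (gramM (G τ)).det) ^ (1 / 4 : ℝ))) atTop := by
  refine (h.defect_le_tail hΩ hν hT hs hst ht).trans ?_
  refine liminf_le_liminf (Eventually.of_forall fun r => ?_)
  unfold tail
  refine mul_le_mul' le_rfl (lintegral_mono_ae ?_)
  have hsub : Ioo s t ∩ {τ | r < ‖G τ‖} ⊆ Ioo 0 T :=
    inter_subset_left.trans (Ioo_subset_Ioo hs ht)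
  filter_upwards [ae_mono (Measure.restrict_mono hsub le_rfl) h.grad] with τ hτ
  exact four_sq_det hΩ.measurableSet (p := (u τ, G τ)) (mem_graphW.mpr hτ)

theorem log_pos' (x : ℝ) (hx : 0 ≤ x) : 0 < Real.log (Real.exp 1 + x) := by
  apply Real.log_pos
  have := Real.add_one_le_exp (1 : ℝ)
  linarith

/-- general form of (C), (D): `N ≤ c K`. -/
theorem eq_of_bound (hΩ : IsOpen Ω) (hν : 0 ≤ ν) (hT : 0 < T)
    (h : IsWeakSolution Ω ν T u G f) {s t : ℝ} (hs : 0 ≤ s) (hst : s ≤ t) (ht : t ≤ T)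
    {K : ℝ → ℝ} {c : ℝ} (hc : 0 ≤ c)
    (hK : ∀ᵐ τ ∂(volume.restrict (Ioo s t)),
      (eLpNorm (u τ) 4 (volume.restrict Ω)) ^ 2 ≤ ENNReal.ofReal (c * K τ))
    (hlog : ∫⁻ τ in Ioo s t, ENNReal.ofReal (‖G τ‖ * K τ / Real.log (Real.exp 1 + ‖G τ‖)) ≠ ⊤) :
    energyDefect ν u G f t = energyDefect ν u G f s := by
  apply eq_of_four_log hΩ hν hT h hs hst ht
  apply ne_of_lt
  calc ∫⁻ τ in Ioo s t, ENNReal.ofReal (‖G τ‖ / Real.log (Real.exp 1 + ‖G τ‖))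
        * (eLpNorm (u τ) 4 (volume.restrict Ω)) ^ 2
      ≤ ∫⁻ τ in Ioo s t, ENNReal.ofReal c
          * ENNReal.ofReal (‖G τ‖ * K τ / Real.log (Real.exp 1 + ‖G τ‖)) := by
        refine lintegral_mono_ae ?_
        filter_upwards [hK] with τ hτ
        have hl := log_pos' ‖G τ‖ (norm_nonneg _)
        refine (mul_le_mul' le_rfl hτ).trans (le_of_eq ?_)
        rw [← ENNReal.ofReal_mul (by positivity), ← ENNReal.ofReal_mul hc]
        congr 1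
        ring
    _ = ENNReal.ofReal c * ∫⁻ τ in Ioo s t,
          ENNReal.ofReal (‖G τ‖ * K τ / Real.log (Real.exp 1 + ‖G τ‖)) :=
        lintegral_const_mul' _ _ ENNReal.ofReal_ne_top
    _ < ⊤ := ENNReal.mul_lt_top ENNReal.ofReal_lt_top (lt_top_iff_ne_top.mpr hlog)

theorem ae_sub (h : IsWeakSolution Ω ν T u G f) {s t : ℝ} (hs : 0 ≤ s) (ht : t ≤ T) :
    ∀ᵐ τ ∂(volume.restrict (Ioo s t)), (u τ, G τ) ∈ graphW Ω ∧ τ ∈ Icc 0 T := by
  filter_upwards [ae_mono (Measure.restrict_mono (Ioo_subset_Ioo hs ht) le_rfl) h.grad,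
    ae_restrict_mem measurableSet_Ioo] with τ h1 h2
  exact ⟨mem_graphW.mpr h1, Ioo_subset_Icc_self (Ioo_subset_Ioo hs ht h2)⟩

/-- (C) -/
theorem eq_of_det (hΩ : IsOpen Ω) (hν : 0 ≤ ν) (hT : 0 < T)
    (h : IsWeakSolution Ω ν T u G f) {s t : ℝ} (hs : 0 ≤ s) (hst : s ≤ t) (ht : t ≤ T)
    (hlog : ∫⁻ τ in Ioo s t, ENNReal.ofReal
      (‖G τ‖ * (gramM (G τ)).det ^ (1 / 4 : ℝ) / Real.log (Real.exp 1 + ‖G τ‖)) ≠ ⊤) :
    energyDefect ν u G f t = energyDefect ν u G f s := by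
  obtain ⟨M, hM⟩ := h.bdd
  refine eq_of_bound hΩ hν hT h hs hst ht (K := fun τ => (gramM (G τ)).det ^ (1 / 4 : ℝ))
    (c := 8 * (M ^ 2) ^ (1 / 4 : ℝ)) (by positivity) ?_ hlog
  filter_upwards [ae_sub h hs ht] with τ hτ
  have hd := gramM_det_nonneg (G τ)
  refine (four_sq_det hΩ.measurableSet hτ.1).trans (ENNReal.ofReal_le_ofReal ?_)
  simp only
  rw [Real.mul_rpow (by positivity) hd, mul_assoc]
  have := hM τ hτ.2
  gcongr

/-- (D) -/
theorem eq_of_dir (hΩ : IsOpen Ω) (hν : 0 ≤ ν) (hT : 0 < T)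
    (h : IsWeakSolution Ω ν T u G f) {s t : ℝ} (hs : 0 ≤ s) (hst : s ≤ t) (ht : t ≤ T)
    (w : ℝ → E3) (hw : ∀ τ, ‖w τ‖ = 1)
    (hlog : ∫⁻ τ in Ioo s t, ENNReal.ofReal
      (‖G τ‖ ^ 2 * Real.sqrt ‖dder (w τ) (G τ)‖ / Real.log (Real.exp 1 + ‖G τ‖)) ≠ ⊤) :
    energyDefect ν u G f t = energyDefect ν u G f s := by
  obtain ⟨M, hM⟩ := h.bdd
  refine eq_of_bound hΩ hν hT h hs hst ht (K := fun τ => ‖G τ‖ * Real.sqrt ‖dder (w τ) (G τ)‖)
    (c := 8 * Real.sqrt M) (by positivity) ?_ ?_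
  · filter_upwards [ae_sub h hs ht] with τ hτ
    refine (four_sq_dir hΩ.measurableSet hτ.1 (hw τ)).trans (ENNReal.ofReal_le_ofReal ?_)
    simp only
    have := hM τ hτ.2
    calc 8 * (Real.sqrt ‖u τ‖ * (Real.sqrt ‖dder (w τ) (G τ)‖ * ‖G τ‖))
        ≤ 8 * (Real.sqrt M * (Real.sqrt ‖dder (w τ) (G τ)‖ * ‖G τ‖)) := by gcongr
      _ = _ := by ring
  · convert hlog using 5
    ring

/-- (E) -/
theorem eq_of_logsq (hΩ : IsOpen Ω) (hν : 0 ≤ ν) (hT : 0 < T)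
    (h : IsWeakSolution Ω ν T u G f) {s t : ℝ} (hs : 0 ≤ s) (hst : s ≤ t) (ht : t ≤ T) {C : ℝ}
    (hC : ∀ᵐ τ ∂(volume.restrict (Ioo s t)), ∃ w : E3, ‖w‖ = 1 ∧
      ‖dder w (G τ)‖ ≤ C * Real.log (Real.exp 1 + ‖G τ‖) ^ 2) :
    energyDefect ν u G f t = energyDefect ν u G f s := by
  obtain ⟨M, hM⟩ := h.bdd
  refine eq_of_bound hΩ hν hT h hs hst ht
    (K := fun τ => ‖G τ‖ * Real.log (Real.exp 1 + ‖G τ‖))
    (c := 8 * (Real.sqrt M * Real.sqrt C)) (by positivity) ?_ ?_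
  · filter_upwards [ae_sub h hs ht, hC] with τ hτ hw
    obtain ⟨w, hw1, hw2⟩ := hw
    refine (four_sq_dir hΩ.measurableSet hτ.1 hw1).trans (ENNReal.ofReal_le_ofReal ?_)
    simp only
    have hl := log_pos' ‖G τ‖ (norm_nonneg _)
    have h1 := hM τ hτ.2
    have h2 : Real.sqrt ‖dder w (G τ)‖ ≤ Real.sqrt C * Real.log (Real.exp 1 + ‖G τ‖) := by
      refine (Real.sqrt_le_sqrt hw2).trans (le_of_eq ?_)
      rw [Real.sqrt_mul' _ (by positivity), Real.sqrt_sq hl.le]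
    calc 8 * (Real.sqrt ‖u τ‖ * (Real.sqrt ‖dder w (G τ)‖ * ‖G τ‖))
        ≤ 8 * (Real.sqrt M * (Real.sqrt C * Real.log (Real.exp 1 + ‖G τ‖) * ‖G τ‖)) := by gcongr
      _ = _ := by ring
  · have h2 : ∫⁻ τ in Ioo s t, ENNReal.ofReal (‖G τ‖ *
        (‖G τ‖ * Real.log (Real.exp 1 + ‖G τ‖)) / Real.log (Real.exp 1 + ‖G τ‖))
        = ∫⁻ τ in Ioo s t, ENNReal.ofReal (‖G τ‖ ^ 2) := by
      refine lintegral_congr fun τ => ?_
      have hl := log_pos' ‖G τ‖ (norm_nonneg _)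
      congr 1
      field_simp
    rw [h2]
    have h3 : MemLp G 2 (volume.restrict (Ioo s t)) :=
      h.gradL2.mono_measure (Measure.restrict_mono (Ioo_subset_Ioo hs ht) le_rfl)
    have h4 := h3.integrable_norm_pow (by norm_num : (2 : ℕ) ≠ 0)
    have h5 := h4.lintegral_lt_top
    exact h5.ne

/-- (F) -/
theorem eq_of_four_four (hΩ : IsOpen Ω) (hν : 0 ≤ ν) (hT : 0 < T)
    (h : IsWeakSolution Ω ν T u G f) {s t : ℝ} (hs : 0 ≤ s) (hst : s ≤ t) (ht : t ≤ T)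
    (hlog : ∫⁻ τ in Ioo s t, (eLpNorm (u τ) 4 (volume.restrict Ω)) ^ 4
      / ENNReal.ofReal (Real.log (Real.exp 1 + ‖G τ‖) ^ 2) ≠ ⊤) :
    energyDefect ν u G f t = energyDefect ν u G f s := by
  apply eq_of_four_log hΩ hν hT h hs hst ht
  have h3 : MemLp G 2 (volume.restrict (Ioo s t)) :=
    h.gradL2.mono_measure (Measure.restrict_mono (Ioo_subset_Ioo hs ht) le_rfl)
  have h4 := (h3.integrable_norm_pow (by norm_num : (2 : ℕ) ≠ 0)).lintegral_lt_top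
  apply ne_of_lt
  have hm : AEMeasurable (fun τ => ENNReal.ofReal (‖G τ‖ ^ 2)) (volume.restrict (Ioo s t)) :=
    ((h3.aestronglyMeasurable.norm.aemeasurable).pow_const 2).ennreal_ofReal
  calc ∫⁻ τ in Ioo s t, ENNReal.ofReal (‖G τ‖ / Real.log (Real.exp 1 + ‖G τ‖))
        * (eLpNorm (u τ) 4 (volume.restrict Ω)) ^ 2
      ≤ ∫⁻ τ in Ioo s t, (ENNReal.ofReal (‖G τ‖ ^ 2)
          + (eLpNorm (u τ) 4 (volume.restrict Ω)) ^ 4
            / ENNReal.ofReal (Real.log (Real.exp 1 + ‖G τ‖) ^ 2)) := by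
        refine lintegral_mono fun τ => ?_
        simp only
        have hl := log_pos' ‖G τ‖ (norm_nonneg _)
        set l := Real.log (Real.exp 1 + ‖G τ‖) with hl'
        set N := eLpNorm (u τ) 4 (volume.restrict Ω) with hN
        have e1 : ENNReal.ofReal (‖G τ‖ / l) * N ^ 2
            = ENNReal.ofReal ‖G τ‖ * (N ^ 2 / ENNReal.ofReal l) := by
          rw [ENNReal.ofReal_div_of_pos hl, div_eq_mul_inv, div_eq_mul_inv]
          ring
        have e2 : N ^ 4 / ENNReal.ofReal (l ^ 2) = (N ^ 2 / ENNReal.ofReal l) ^ 2 := by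
          rw [ENNReal.ofReal_pow hl.le, div_eq_mul_inv, div_eq_mul_inv, mul_pow, ← pow_mul,
            ENNReal.inv_pow]
        rw [e1, e2, ENNReal.ofReal_pow (norm_nonneg _)]
        set a := ENNReal.ofReal ‖G τ‖
        set b := N ^ 2 / ENNReal.ofReal l
        rcases le_total a b with hab | hab
        · calc a * b ≤ b * b := by gcongr
            _ = b ^ 2 := by ring
            _ ≤ a ^ 2 + b ^ 2 := le_add_self
        · calc a * b ≤ a * a := by gcongr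
            _ = a ^ 2 := by ring
            _ ≤ a ^ 2 + b ^ 2 := le_self_add
    _ = (∫⁻ τ in Ioo s t, ENNReal.ofReal (‖G τ‖ ^ 2))
        + ∫⁻ τ in Ioo s t, (eLpNorm (u τ) 4 (volume.restrict Ω)) ^ 4
            / ENNReal.ofReal (Real.log (Real.exp 1 + ‖G τ‖) ^ 2) :=
        lintegral_add_left' hm _
    _ < ⊤ := ENNReal.add_lt_top.mpr ⟨h4, lt_top_iff_ne_top.mpr hlog⟩

end Q176.AN
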