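import Mathlib
import Pool.Agent.H772R2.NS.Pub

/-!
Public definitions: the norm of the convective term in the dual of `H¹_{0,σ}`; the norm in
`L^{6/5}` of `(∇v + c (∇v)ᵀ) v`.
-/

open MeasureTheory
open scoped InnerProductSpace ENNReal

namespace Q176.AN

open H772R2.NS.Pub

/-- The norm of the convective term `(v·∇)v` in the dual of `H¹_{0,σ}(Ω)` with the norm `‖∇φ‖`:
the supremum of `-⟨(v·∇)v, φ⟩ = ∫_Ω v·(v·∇)φ dx` over the divergence free test fields `φ` with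
`‖∇φ‖ ≤ 1`. -/
noncomputable def convNorm {Ω : Set R3} (v : L2 Ω R3) : ℝ≥0∞ :=
  ⨆ φ : R3 → R3, ⨆ (_ : IsTest Ω φ), ⨆ (_ : ∫ x in Ω, ‖jac φ x‖ ^ 2 ≤ 1),
    ENNReal.ofReal (∫ x in Ω, ⟪v.fn x, fderiv ℝ φ x (v.fn x)⟫_ℝ)

/-- The vector `A w + c Aᵀ w`. If `A` is the Jacobian matrix of `v` at `x` and `w = v(x)` then it
is `(v·∇)v` for `c = 0`, the Lamb vector `ω × v` (`ω = curl v`) for `c = -1`, and `2 S v`, `S` the
strain, for `c = 1`. -/
noncomputable def mulVc (c : ℝ) (A : Mat) (w : R3) : R3 :=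
  WithLp.toLp 2 fun i : Fin 3 => ∑ j : Fin 3,
    ((show EuclideanSpace ℝ (Fin 3 × Fin 3) from A) (i, j)
      + c * (show EuclideanSpace ℝ (Fin 3 × Fin 3) from A) (j, i))
      * (show EuclideanSpace ℝ (Fin 3) from w) j

/-- The norm in `L^{6/5}(Ω)` of `(∇v + c (∇v)ᵀ) v`, where `z = ∇v`. -/
noncomputable def lambNorm {Ω : Set R3} (c : ℝ) (z : L2 Ω Mat) (v : L2 Ω R3) : ℝ≥0∞ :=
  eLpNorm (fun x => mulVc c (z.fn x) (v.fn x)) (6 / 5) (volume.restrict Ω)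

end Q176.AN
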