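import Mathlib
import Pool.Agent.H772R2.NS.PubBridge
import Pool.Agent.Q176.AN.Pub2
import Pool.Agent.Q176.AN.Lamb

/-!
The criteria in terms of the convective term.
-/

set_option linter.unusedSectionVars false

open MeasureTheory Set Filter Topology
open scoped InnerProductSpace ENNReal ContDiff NNReal

namespace Q176.AN

open H772R2.NS

section bridge

variable {Ω : Set E3}

theorem lambNorm_eq (c : ℝ) (z : L2M Ω) (v : L2V Ω) :
    lambNorm (Ω := Ω) c z v = lamb c z v := rfl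

theorem inner_fd (φ : E3 → E3) (x w : E3) : ⟪w, fderiv ℝ φ x w⟫_ℝ = ⟪tens w, jac φ x⟫_ℝ := by
  rw [Pub.inner_fderiv, inner_M3]
  rfl

theorem convNorm_eq (v : L2V Ω) : convNorm (Ω := Ω) v = convN v := by
  have key : ∀ φ : E3 → E3,
      (⨆ (_ : Pub.IsTest Ω φ), ⨆ (_ : ∫ x in Ω, ‖Pub.jac φ x‖ ^ 2 ≤ 1),
        ENNReal.ofReal (∫ x in Ω, ⟪(Pub.L2.fn (Ω := Ω) (E := Pub.R3) v x : E3),
          fderiv ℝ φ x (Pub.L2.fn (Ω := Ω) (E := Pub.R3) v x : E3)⟫_ℝ))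
      = ⨆ (_ : IsTest Ω φ), ⨆ (_ : ∫ x in Ω, ‖jac φ x‖ ^ 2 ≤ 1), ENNReal.ofReal (pair v φ) := by
    intro φ
    have e1 : (∫ x in Ω, ⟪(Pub.L2.fn (Ω := Ω) (E := Pub.R3) v x : E3),
          fderiv ℝ φ x (Pub.L2.fn (Ω := Ω) (E := Pub.R3) v x : E3)⟫_ℝ) = pair v φ :=
      integral_congr_ae (Eventually.of_forall fun x => inner_fd φ x (v x))
    have e2 : (∫ x in Ω, ‖Pub.jac φ x‖ ^ 2) = ∫ x in Ω, ‖jac φ x‖ ^ 2 :=
      integral_congr_ae (μ := (volume : Measure E3).restrict (Ω : Set E3))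
        (Eventually.of_forall fun x => congrArg (fun y : M3 => ‖y‖ ^ 2) (Pub.jac_eq φ x))
    rw [e1, e2]
    exact iSup_congr_Prop (Pub.isTest_iff φ) fun _ => rfl
  exact iSup_congr key

end bridge

variable {Ω : Set E3} {ν T : ℝ} {u : ℝ → L2V Ω} {G : ℝ → L2M Ω} {f : ℝ → L2V Ω}

/-- `‖(v·∇)v‖_{-1} ≤ ‖v‖₄²`. -/
theorem conv_le_four (hΩ : MeasurableSet Ω) {p : L2V Ω × L2M Ω} (hp : p ∈ graphW Ω) :
    convN p.1 ≤ (eLpNorm p.1 4 (volume.restrict Ω)) ^ 2 := by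
  unfold convN
  refine iSup_le fun φ => iSup_le fun h => iSup_le fun h1 => ?_
  rw [pair_eq hΩ hp (jacL_coe h), ← enorm_tensL hΩ hp, ← ofReal_norm]
  apply ENNReal.ofReal_le_ofReal
  have h2 : ‖jacL h‖ ≤ 1 := by
    have h3 := norm_sq_q (jacL_coe h)
    have h4 : ‖jacL h‖ ^ 2 ≤ 1 ^ 2 := by rw [h3]; simpa using h1
    exact (pow_le_pow_iff_left₀ (norm_nonneg _) (by norm_num) (by norm_num)).mp h4
  calc ⟪tensL p.1, jacL h⟫_ℝ ≤ ‖tensL p.1‖ * ‖jacL h‖ := real_inner_le_norm _ _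
    _ ≤ ‖tensL p.1‖ * 1 := by gcongr
    _ = ‖tensL p.1‖ := mul_one _

theorem defect_le_conv (hΩ : IsOpen Ω) (hν : 0 ≤ ν) (hT : 0 < T)
    (h : IsWeakSolution Ω ν T u G f) {s t : ℝ} (hs : 0 ≤ s) (hst : s ≤ t) (ht : t ≤ T) :
    ENNReal.ofReal |energyDefect ν u G f t - energyDefect ν u G f s|
      ≤ Filter.liminf (fun r : ℝ => ENNReal.ofReal r
        * ∫⁻ τ in Ioo s t ∩ {τ | r < ‖G τ‖}, convN (u τ)) atTop := by
  refine (defect_le_pm hΩ hν hT h hs hst ht).trans ?_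
  refine liminf_le_liminf (Eventually.of_forall fun r => ?_)
  have hset : NullMeasurableSet {τ | r < ‖G τ‖} (volume.restrict (Ioo s t)) :=
    nullMeasurableSet_lt aemeasurable_const (g_meas h hs ht)
  rw [Measure.restrict_restrict₀ hset, inter_comm {τ | r < ‖G τ‖}]
  refine mul_le_mul' le_rfl (lintegral_mono_ae ?_)
  filter_upwards [ae_mono (Measure.restrict_mono inter_subset_left le_rfl)
    (ae_graph h hs ht)] with τ hτ
  exact proj_le_conv hΩ.measurableSet (p := (u τ, G τ)) hτ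

theorem pm_le_conv (hΩ : IsOpen Ω)
    (h : IsWeakSolution Ω ν T u G f) {s t : ℝ} (hs : 0 ≤ s) (ht : t ≤ T) :
    ∀ᵐ τ ∂(volume.restrict (Ioo s t)), pm u τ ≤ ENNReal.ofReal 1 * convN (u τ) := by
  filter_upwards [ae_graph h hs ht] with τ hτ
  rw [ENNReal.ofReal_one, one_mul]
  exact proj_le_conv hΩ.measurableSet (p := (u τ, G τ)) hτ

theorem pm_le_lamb (hΩ : IsOpen Ω)
    (h : IsWeakSolution Ω ν T u G f) {s t : ℝ} (hs : 0 ≤ s) (ht : t ≤ T) (c : ℝ → ℝ) :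
    ∀ᵐ τ ∂(volume.restrict (Ioo s t)), pm u τ ≤ ENNReal.ofReal 4 * lamb (c τ) (G τ) (u τ) := by
  filter_upwards [ae_graph h hs ht] with τ hτ
  refine (proj_le_conv hΩ.measurableSet (p := (u τ, G τ)) hτ).trans ?_
  refine (conv_le_lamb hΩ.measurableSet (c τ) (p := (u τ, G τ)) hτ).trans (le_of_eq ?_)
  simp

theorem ae_bounds (hΩ : IsOpen Ω) (h : IsWeakSolution Ω ν T u G f) :
    ∀ᵐ τ ∂(volume.restrict (Ioo 0 T)),
      convN (u τ) ≤ (eLpNorm (u τ) 4 (volume.restrict Ω)) ^ 2 ∧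
      ∀ c : ℝ, convN (u τ) ≤ 4 * lamb c (G τ) (u τ) := by
  filter_upwards [h.grad] with τ hτ
  have hm : (u τ, G τ) ∈ graphW Ω := mem_graphW.mpr hτ
  exact ⟨conv_le_four hΩ.measurableSet (p := (u τ, G τ)) hm,
    fun c => conv_le_lamb hΩ.measurableSet c (p := (u τ, G τ)) hm⟩

/-- `N² / log²` integrable. -/
theorem int_of_sq (h : IsWeakSolution Ω ν T u G f) {s t : ℝ} (hs : 0 ≤ s) (ht : t ≤ T)
    {N : ℝ → ℝ≥0∞}
    (hlog : ∫⁻ τ in Ioo s t, N τ ^ 2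
      / ENNReal.ofReal (Real.log (Real.exp 1 + ‖G τ‖) ^ 2) ≠ ⊤) :
    ∫⁻ τ in Ioo s t, ENNReal.ofReal (‖G τ‖ / Real.log (Real.exp 1 + ‖G τ‖)) * N τ ≠ ⊤ := by
  have h4 := (g_int h hs ht).lintegral_lt_top
  apply ne_of_lt
  have hm : AEMeasurable (fun τ => ENNReal.ofReal (‖G τ‖ ^ 2)) (volume.restrict (Ioo s t)) :=
    ((g_meas h hs ht).pow_const 2).ennreal_ofReal
  calc ∫⁻ τ in Ioo s t, ENNReal.ofReal (‖G τ‖ / Real.log (Real.exp 1 + ‖G τ‖)) * N τ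
      ≤ ∫⁻ τ in Ioo s t, (ENNReal.ofReal (‖G τ‖ ^ 2) + N τ ^ 2
            / ENNReal.ofReal (Real.log (Real.exp 1 + ‖G τ‖) ^ 2)) := by
        refine lintegral_mono fun τ => ?_
        simp only
        have hl := log_pos'' ‖G τ‖ (norm_nonneg _)
        set l := Real.log (Real.exp 1 + ‖G τ‖) with hl'
        have e1 : ENNReal.ofReal (‖G τ‖ / l) * N τ
            = ENNReal.ofReal ‖G τ‖ * (N τ / ENNReal.ofReal l) := by
          rw [ENNReal.ofReal_div_of_pos hl, div_eq_mul_inv, div_eq_mul_inv]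
          ring
        have e2 : N τ ^ 2 / ENNReal.ofReal (l ^ 2) = (N τ / ENNReal.ofReal l) ^ 2 := by
          rw [ENNReal.ofReal_pow hl.le, div_eq_mul_inv, div_eq_mul_inv, mul_pow,
            ENNReal.inv_pow]
        rw [e1, e2, ENNReal.ofReal_pow (norm_nonneg _)]
        set a := ENNReal.ofReal ‖G τ‖
        set b := N τ / ENNReal.ofReal l
        rcases le_total a b with hab | hab
        · calc a * b ≤ b * b := by gcongr
            _ = b ^ 2 := by ring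
            _ ≤ a ^ 2 + b ^ 2 := le_add_self
        · calc a * b ≤ a * a := by gcongr
            _ = a ^ 2 := by ring
            _ ≤ a ^ 2 + b ^ 2 := le_self_add
    _ = (∫⁻ τ in Ioo s t, ENNReal.ofReal (‖G τ‖ ^ 2)) + ∫⁻ τ in Ioo s t, N τ ^ 2
            / ENNReal.ofReal (Real.log (Real.exp 1 + ‖G τ‖) ^ 2) :=
        lintegral_add_left' hm _
    _ < ⊤ := ENNReal.add_lt_top.mpr ⟨h4, lt_top_iff_ne_top.mpr hlog⟩

end Q176.AN
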